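import Mathlib

set_option autoImplicit false

namespace Pool.MP_d56194_co

open Finset Real Filter Topology

/-- One dimensional perturbation lemma for the entropy: if moving mass `ε` from the two
values `s, t` to the two values `u, v` never increases the entropy, then `s t ≤ u v`. -/
theorem entropy_pert (u v s t : ℝ) (hu : 0 ≤ u) (hv : 0 ≤ v) (hs : 0 < s) (ht : 0 < t)
    (h : ∀ᶠ ε in 𝓝[>] (0 : ℝ),
      negMulLog (u + ε) + negMulLog (v + ε) + negMulLog (s - ε) + negMulLog (t - ε) ≤
        negMulLog u + negMulLog v + negMulLog s + negMulLog t) :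
    s * t ≤ u * v := by
  by_contra hlt
  push Not at hlt
  set g : ℝ → ℝ := fun ε => negMulLog (u + ε) + negMulLog (v + ε) + negMulLog (s - ε) +
    negMulLog (t - ε) with hg
  have hcont : Continuous g := by
    have := continuous_negMulLog
    fun_prop
  -- near zero the products compare strictly
  have h1 : ∀ᶠ ε in 𝓝 (0 : ℝ), (u + ε) * (v + ε) < (s - ε) * (t - ε) := by
    have hc1 : ContinuousAt (fun ε : ℝ => (u + ε) * (v + ε)) 0 := by fun_prop
    have hc2 : ContinuousAt (fun ε : ℝ => (s - ε) * (t - ε)) 0 := by fun_prop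
    have := hc1.eventually_lt hc2 (by simpa using hlt)
    exact this
  have h2 : ∀ᶠ ε in 𝓝 (0 : ℝ), ε < s := eventually_lt_nhds hs
  have h3 : ∀ᶠ ε in 𝓝 (0 : ℝ), ε < t := eventually_lt_nhds ht
  have h4 := h1.and (h2.and h3)
  rw [Metric.eventually_nhds_iff] at h4
  obtain ⟨δ, hδ, h4⟩ := h4
  have h5 : ∀ᶠ ε in 𝓝[>] (0 : ℝ), 0 < ε ∧ ε < δ := by
    have ha : ∀ᶠ ε in 𝓝[>] (0 : ℝ), ε ∈ Set.Ioo (0 : ℝ) δ := Ioo_mem_nhdsGT hδ
    filter_upwards [ha] with ε hε using ⟨hε.1, hε.2⟩
  obtain ⟨ε, hε, hε0, hεδ⟩ := (h.and h5).exists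
  have hmono : StrictMonoOn g (Set.Icc 0 ε) := by
    apply strictMonoOn_of_deriv_pos (convex_Icc 0 ε) hcont.continuousOn
    intro x hx
    rw [interior_Icc] at hx
    obtain ⟨hx0, hxε⟩ := hx
    have hxd : dist x 0 < δ := by
      rw [Real.dist_eq, sub_zero, abs_of_pos hx0]; linarith
    obtain ⟨hp, hxs, hxt⟩ := h4 hxd
    have e1 : HasDerivAt (fun y : ℝ => negMulLog (u + y)) (-log (u + x) - 1) x := by
      exact (hasDerivAt_negMulLog (x := u + x) (by linarith)).comp_const_add u x
    have e2 : HasDerivAt (fun y : ℝ => negMulLog (v + y)) (-log (v + x) - 1) x := by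
      exact (hasDerivAt_negMulLog (x := v + x) (by linarith)).comp_const_add v x
    have e3 : HasDerivAt (fun y : ℝ => negMulLog (s - y)) (log (s - x) + 1) x := by
      have := (hasDerivAt_negMulLog (x := s - x) (by linarith)).comp x
        ((hasDerivAt_id x).const_sub s)
      have h' : HasDerivAt (fun y : ℝ => negMulLog (s - y)) ((-log (s - x) - 1) * -1) x := by
        simpa [Function.comp_def] using this
      convert h' using 1
      ring
    have e4 : HasDerivAt (fun y : ℝ => negMulLog (t - y)) (log (t - x) + 1) x := by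
      have := (hasDerivAt_negMulLog (x := t - x) (by linarith)).comp x
        ((hasDerivAt_id x).const_sub t)
      have h' : HasDerivAt (fun y : ℝ => negMulLog (t - y)) ((-log (t - x) - 1) * -1) x := by
        simpa [Function.comp_def] using this
      convert h' using 1
      ring
    have e := ((e1.add e2).add e3).add e4
    have hd : deriv g x = (-log (u + x) - 1 + (-log (v + x) - 1) + (log (s - x) + 1) +
        (log (t - x) + 1)) := by
      have := e.deriv
      rw [← this]
      rfl
    rw [hd]
    have hux : 0 < u + x := by linarith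
    have hvx : 0 < v + x := by linarith
    have hsx : 0 < s - x := by linarith
    have htx : 0 < t - x := by linarith
    have hl : log ((u + x) * (v + x)) < log ((s - x) * (t - x)) :=
      Real.log_lt_log (mul_pos hux hvx) hp
    rw [Real.log_mul hux.ne' hvx.ne', Real.log_mul hsx.ne' htx.ne'] at hl
    linarith
  have hlt2 : g 0 < g ε := hmono (Set.left_mem_Icc.mpr hε0.le) (Set.right_mem_Icc.mpr hε0.le) hε0
  have hg0 : g 0 = negMulLog u + negMulLog v + negMulLog s + negMulLog t := by
    simp [hg]
  rw [hg0] at hlt2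
  exact absurd hε (not_le.mpr hlt2)

/-- The algebra behind the log-modularity of the slices. -/
theorem alg_lemma (A A' B B' C C' D D' : ℝ) (hB : 0 ≤ B)
    (hB' : 0 ≤ B') (hC' : 0 ≤ C') (hD : 0 ≤ D)
    (r1 : A * B' = A' * B) (r2 : C * D' = C' * D) (h3 : B * D' ≤ B' * D)
    (x1 : A * D' ≤ A' * D) (x2 : C * B' ≤ A' * D) :
    A * D' + C * B' ≤ A' * D + C' * B := by
  rcases hB'.eq_or_lt with h | h
  · rw [← h, mul_zero, add_zero]
    nlinarith [mul_nonneg hC' hB]
  · rcases hD.eq_or_lt with h' | h'
    · rw [← h'] at x1 x2 ⊢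
      nlinarith [mul_nonneg hC' hB]
    · have hp : 0 < B' * D := mul_pos h h'
      have key : (A' * D + C' * B - (A * D' + C * B')) * (B' * D) =
          (A' * D - C * B') * (B' * D - B * D') := by
        have e1 : C' * B * (B' * D) = C * D' * B * B' := by rw [r2]; ring
        have e2 : A * D' * (B' * D) = A' * B * D' * D := by rw [← r1]; ring
        linear_combination e1 - e2
      have : 0 ≤ (A' * D + C' * B - (A * D' + C * B')) * (B' * D) := by
        rw [key]
        exact mul_nonneg (by linarith) (by linarith)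
      have := nonneg_of_mul_nonneg_left this hp
      linarith

end Pool.MP_d56194_co
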