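import Mathlib

set_option autoImplicit false

namespace Pool.MP_d56194_co

open Finset

/-- The two dimensional maximum principle. -/
theorem maxprin (M : ℕ) (S : ℕ → ℕ) (hS : Antitone S) (P : ℕ → ℕ → ℝ)
    (hP : ∀ x y, 0 ≤ P x y) (Δ : ℕ → ℕ → ℝ)
    (hΔ : ∀ a b, Δ a b = ∑ x ∈ Ico a M, ∑ y ∈ Ico b M,
      ((if y < S x then (1 : ℝ) else 0) - P x y))
    (h0 : ∀ b, Δ 0 b = 0) (h0' : ∀ a, Δ a 0 = 0) (hnn : ∀ a b, 0 ≤ Δ a b)
    (hK : ∀ a y y', a + 1 < M → y < y' → y' < M →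
      (∀ t, y < t → t ≤ y' → 0 < Δ (a + 1) t) →
      P (a + 1) y * P a y' ≤ P (a + 1) y' * P a y) :
    ∀ a b, Δ a b = 0 := by
  classical
  set c : ℕ → ℕ → ℝ := fun x y => if y < S x then (1 : ℝ) else 0 with hc
  have hc0 : ∀ x y, 0 ≤ c x y := by
    intro x y; simp only [hc]; split_ifs <;> norm_num
  have hcanti : ∀ x y, c (x + 1) y ≤ c x y := by
    intro x y
    simp only [hc]
    have h3 : S (x + 1) ≤ S x := hS (Nat.le_succ x)
    split_ifs with h1 h2 <;> first | (exfalso; omega) | norm_num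
  have hMa : ∀ a b, M ≤ a → Δ a b = 0 := by
    intro a b h
    rw [hΔ, Finset.Ico_eq_empty (by omega)]
    simp
  have hMb : ∀ a b, M ≤ b → Δ a b = 0 := by
    intro a b h
    rw [hΔ, Finset.Ico_eq_empty (show ¬ b < M by omega)]
    simp
  -- row identity
  have hrow : ∀ a u v, a < M → u ≤ v → v ≤ M →
      ∑ y ∈ Ico u v, c a y - ∑ y ∈ Ico u v, P a y =
        (Δ a u - Δ (a + 1) u) - (Δ a v - Δ (a + 1) v) := by
    intro a u v ha huv hvM
    have e1 : ∀ w, Δ a w = ∑ y ∈ Ico w M, (c a y - P a y) + Δ (a + 1) w := by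
      intro w
      rw [hΔ, hΔ, Finset.sum_eq_sum_Ico_succ_bot ha]
    rw [e1 u, e1 v, ← Finset.sum_Ico_consecutive _ huv hvM, ← Finset.sum_sub_distrib]
    ring
  by_contra hne
  push Not at hne
  obtain ⟨a₁, b₁, hab₁⟩ := hne
  -- the maximum
  obtain ⟨⟨a₂, b₂⟩, hmem₂, hmax⟩ := Finset.exists_max_image (range (M + 1) ×ˢ range (M + 1))
    (fun z => Δ z.1 z.2) ⟨(0, 0), by simp⟩
  set δ := Δ a₂ b₂ with hδ
  have hle : ∀ a b, Δ a b ≤ δ := by
    intro a b
    by_cases ha : a ≤ M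
    · by_cases hb : b ≤ M
      · exact hmax (a, b) (by simp; omega)
      · rw [hMb a b (by omega)]; exact hnn _ _
    · rw [hMa a b (by omega)]; exact hnn _ _
  have hδpos : 0 < δ := lt_of_lt_of_le (lt_of_le_of_ne (hnn _ _) (Ne.symm hab₁)) (hle a₁ b₁)
  have hex : ∃ b, Δ a₂ b = δ := ⟨b₂, rfl⟩
  have ha₂M : a₂ ≤ M := by
    by_contra h
    have := hMa a₂ b₂ (by omega)
    rw [← hδ] at this
    linarith
  -- largest row
  set a := Nat.findGreatest (fun a => ∃ b, Δ a b = δ) M with ha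
  have haspec : ∃ b, Δ a b = δ := Nat.findGreatest_spec (P := fun a => ∃ b, Δ a b = δ) ha₂M hex
  have hgt : ∀ a', a < a' → ∀ b, Δ a' b < δ := by
    intro a' ha' b
    by_cases hM' : a' ≤ M
    · have := Nat.findGreatest_is_greatest (P := fun a => ∃ b, Δ a b = δ) ha' hM'
      push Not at this
      exact lt_of_le_of_ne (hle a' b) (this b)
    · rw [hMa a' b (by omega)]; exact hδpos
  obtain ⟨b, hb⟩ := haspec
  clear_value a
  have haM : a < M := by
    by_contra h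
    rw [hMa a b (by omega)] at hb
    linarith
  have hbM : b < M := by
    by_contra h
    rw [hMb a b (by omega)] at hb
    linarith
  obtain ⟨a₀, rfl⟩ : ∃ a₀, a = a₀ + 1 := by
    cases a with
    | zero => rw [h0] at hb; linarith
    | succ n => exact ⟨n, rfl⟩
  -- slack interval
  set y0 := Nat.findGreatest (fun t => Δ (a₀ + 1) t = 0) b with hy0
  have hy0z : Δ (a₀ + 1) y0 = 0 :=
    Nat.findGreatest_spec (P := fun t => Δ (a₀ + 1) t = 0) (Nat.zero_le b) (h0' _)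
  have hy0le : y0 ≤ b := Nat.findGreatest_le b
  have hy0g : ∀ t, y0 < t → t ≤ b → Δ (a₀ + 1) t ≠ 0 := fun t h1 h2 =>
    Nat.findGreatest_is_greatest (P := fun t => Δ (a₀ + 1) t = 0) h1 h2
  have hy0lt : y0 < b := by
    rcases hy0le.lt_or_eq with h | h
    · exact h
    · rw [h, hb] at hy0z; linarith
  have hexy : ∃ t, b ≤ t ∧ Δ (a₀ + 1) t = 0 := ⟨M, hbM.le, hMb _ _ le_rfl⟩
  set y1 := Nat.find hexy with hy1
  have hy1s := Nat.find_spec hexy
  rw [← hy1] at hy1s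
  have hy1m : ∀ t, b ≤ t → t < y1 → Δ (a₀ + 1) t ≠ 0 := by
    intro t h1 h2 h3
    exact Nat.find_min hexy h2 ⟨h1, h3⟩
  have hy1M : y1 ≤ M := Nat.find_min' hexy ⟨hbM.le, hMb _ _ le_rfl⟩
  have hslack : ∀ t, y0 < t → t < y1 → 0 < Δ (a₀ + 1) t := by
    intro t h1 h2
    refine lt_of_le_of_ne (hnn _ _) (Ne.symm ?_)
    by_cases h : t ≤ b
    · exact hy0g t h1 h
    · exact hy1m t (by omega) h2
  clear_value y0 y1
  obtain ⟨hby1, hy1z⟩ := hy1s
  -- the four comparisons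
  have i1 := hrow (a₀ + 1) y0 b haM hy0lt.le hbM.le
  have i2 := hrow (a₀ + 1) b y1 haM hby1 hy1M
  have i3 := hrow a₀ y0 b (by omega) hy0lt.le hbM.le
  have i4 := hrow a₀ b y1 (by omega) hby1 hy1M
  have g1 := hgt (a₀ + 1 + 1) (by omega) b
  have g2 := hnn (a₀ + 1 + 1) y0
  have g3 := hnn (a₀ + 1 + 1) y1
  have g4 := hle a₀ b
  have g5 := hnn a₀ y0
  have g6 := hnn a₀ y1
  rw [hb, hy0z] at i1 i3
  rw [hb, hy1z] at i2 i4
  set cL := ∑ y ∈ Ico y0 b, c (a₀ + 1) y with hcL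
  set cR := ∑ y ∈ Ico b y1, c (a₀ + 1) y with hcR
  set dL := ∑ y ∈ Ico y0 b, c a₀ y with hdL
  set dR := ∑ y ∈ Ico b y1, c a₀ y with hdR
  set pL := ∑ y ∈ Ico y0 b, P (a₀ + 1) y with hpL
  set pR := ∑ y ∈ Ico b y1, P (a₀ + 1) y with hpR
  set qL := ∑ y ∈ Ico y0 b, P a₀ y with hqL
  set qR := ∑ y ∈ Ico b y1, P a₀ y with hqR
  have j1 : cL < pL := by linarith
  have j2 : pR < cR := by linarith
  have j3 : qL ≤ dL := by linarith
  have j4 : dR ≤ qR := by linarith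
  have hpR0 : 0 ≤ pR := Finset.sum_nonneg (fun y _ => hP _ _)
  have hqL0 : 0 ≤ qL := Finset.sum_nonneg (fun y _ => hP _ _)
  have hcL0 : 0 ≤ cL := Finset.sum_nonneg (fun y _ => hc0 _ _)
  have hdL0 : 0 ≤ dL := Finset.sum_nonneg (fun y _ => hc0 _ _)
  have hcdR : cR ≤ dR := Finset.sum_le_sum (fun y _ => hcanti _ _)
  have hcR0 : 0 < cR := lt_of_le_of_lt hpR0 j2
  -- Ferrers shape: row a contains all of [y0,b)
  obtain ⟨y, hy, hyc⟩ : ∃ y ∈ Ico b y1, 0 < c (a₀ + 1) y := by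
    by_contra hno
    push Not at hno
    have : cR ≤ 0 := Finset.sum_nonpos hno
    linarith
  have hyS : y < S (a₀ + 1) := by
    by_contra h
    simp only [hc, if_neg h] at hyc
    exact lt_irrefl _ hyc
  have hby : b ≤ y := (Finset.mem_Ico.mp hy).1
  have hLL : cL = dL := by
    apply Finset.sum_congr rfl
    intro z hz
    have hz2 := (Finset.mem_Ico.mp hz).2
    have hSS : S (a₀ + 1) ≤ S a₀ := hS (Nat.le_succ a₀)
    simp only [hc]
    rw [if_pos (by omega), if_pos (by omega)]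
  -- the kernel inequality summed
  have hKs : pL * qR ≤ pR * qL := by
    rw [hpL, hqR, hpR, hqL, Finset.sum_mul_sum, Finset.sum_mul_sum, Finset.sum_comm]
    apply Finset.sum_le_sum
    intro y' hy'
    apply Finset.sum_le_sum
    intro z hz
    obtain ⟨hy'1, hy'2⟩ := Finset.mem_Ico.mp hy'
    obtain ⟨hz1, hz2⟩ := Finset.mem_Ico.mp hz
    exact hK a₀ z y' haM (by omega) (by omega) (fun t h1 h2 => hslack t (by omega) (by omega))
  have k1 : cL * dR < pL * qR := by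
    have hdRpos : 0 < dR := lt_of_lt_of_le hcR0 hcdR
    calc cL * dR < pL * dR := mul_lt_mul_of_pos_right j1 hdRpos
      _ ≤ pL * qR := mul_le_mul_of_nonneg_left j4 (by linarith)
  have k2 : pR * qL ≤ cR * dL := mul_le_mul j2.le j3 hqL0 hcR0.le
  have k3 : cR * dL ≤ cL * dR := by
    rw [← hLL, mul_comm]
    exact mul_le_mul_of_nonneg_left hcdR hcL0
  linarith

/-- Consequence: `P` is the indicator of the shape. -/
theorem eq_of_Delta_zero (M : ℕ) (c P : ℕ → ℕ → ℝ)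
    (h : ∀ a b, ∑ x ∈ Ico a M, ∑ y ∈ Ico b M, (c x y - P x y) = 0) (a b : ℕ) (ha : a < M)
    (hb : b < M) : P a b = c a b := by
  have h1 : ∑ y ∈ Ico b M, (c a y - P a y) = 0 := by
    have e := h a b
    rw [Finset.sum_eq_sum_Ico_succ_bot ha, h (a + 1) b, add_zero] at e
    exact e
  have h2 : ∑ y ∈ Ico (b + 1) M, (c a y - P a y) = 0 := by
    have e := h a (b + 1)
    rw [Finset.sum_eq_sum_Ico_succ_bot ha, h (a + 1) (b + 1), add_zero] at e
    exact e
  rw [Finset.sum_eq_sum_Ico_succ_bot hb, h2, add_zero] at h1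
  linarith

end Pool.MP_d56194_co
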