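import Mathlib
import Pool.Agent.Lib.MP_d56194_co.A1
import Pool.Agent.Lib.MP_d56194_co.A2

set_option autoImplicit false

namespace Pool.MP_d56194_co

open Finset Real Filter Topology

/-- Positions `(p, x, y)`. -/
abbrev V3 := ℕ × ℕ × ℕ

/-- The box `[0,M)^3`. -/
def Box (M : ℕ) : Finset V3 := range M ×ˢ range M ×ˢ range M

theorem mem_Box (M : ℕ) (v : V3) : v ∈ Box M ↔ v.1 < M ∧ v.2.1 < M ∧ v.2.2 < M := by
  simp [Box]

/-- The mass of `L` on the positions of the box satisfying `Q`. -/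
noncomputable def mass (M : ℕ) (L : V3 → ℝ) (Q : V3 → Prop) [DecidablePred Q] : ℝ :=
  ∑ v ∈ Box M, if Q v then L v else 0

/-- The relaxed polytope: all one dimensional margins are `S`, all far corner sums of the
three two dimensional margins are at most `C`. -/
def KK (M : ℕ) (S : ℕ → ℕ) (C : ℕ → ℕ → ℝ) : Set (V3 → ℝ) :=
  {L | (∀ v, 0 ≤ L v) ∧ (∀ v, v ∉ Box M → L v = 0) ∧
    (∀ p, p < M → mass M L (fun v => v.1 = p) = S p) ∧
    (∀ p, p < M → mass M L (fun v => v.2.1 = p) = S p) ∧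
    (∀ p, p < M → mass M L (fun v => v.2.2 = p) = S p) ∧
    (∀ a b, a < M → b < M → mass M L (fun v => a ≤ v.1 ∧ b ≤ v.2.1) ≤ C a b) ∧
    (∀ a b, a < M → b < M → mass M L (fun v => a ≤ v.1 ∧ b ≤ v.2.2) ≤ C a b) ∧
    (∀ a b, a < M → b < M → mass M L (fun v => a ≤ v.2.1 ∧ b ≤ v.2.2) ≤ C a b)}

/-- Moving mass `ε` from `s, t` to `u, v`. -/
noncomputable def mv (L : V3 → ℝ) (u v s t : V3) (ε : ℝ) : V3 → ℝ :=
  fun w => L w + ε * ((if w = u then 1 else 0) + (if w = v then 1 else 0) -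
    (if w = s then 1 else 0) - (if w = t then 1 else 0))

theorem mass_mv (M : ℕ) (L : V3 → ℝ) (u v s t : V3) (hu : u ∈ Box M) (hv : v ∈ Box M)
    (hs : s ∈ Box M) (ht : t ∈ Box M) (ε : ℝ) (Q : V3 → Prop) [DecidablePred Q] :
    mass M (mv L u v s t ε) Q = mass M L Q + ε * ((if Q u then 1 else 0) +
      (if Q v then 1 else 0) - (if Q s then 1 else 0) - (if Q t then 1 else 0)) := by
  have key : ∀ z : V3, z ∈ Box M →
      ∑ w ∈ Box M, (if w = z then (if Q z then (1 : ℝ) else 0) else 0) =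
        (if Q z then 1 else 0) := by
    intro z hz
    rw [Finset.sum_ite_eq' (Box M) z, if_pos hz]
  have h1 : ∀ w z : V3, (if w = z then (if Q z then (1 : ℝ) else 0) else 0) =
      (if Q w then (if w = z then (1 : ℝ) else 0) else 0) := by
    intro w z
    by_cases h : w = z
    · subst h; simp
    · simp [h]
  rw [← key u hu, ← key v hv, ← key s hs, ← key t ht]
  unfold mass
  rw [← Finset.sum_add_distrib, ← Finset.sum_sub_distrib, ← Finset.sum_sub_distrib,
    Finset.mul_sum, ← Finset.sum_add_distrib]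
  apply Finset.sum_congr rfl
  intro w _
  rw [h1 w u, h1 w v, h1 w s, h1 w t]
  unfold mv
  split_ifs <;> ring

theorem ent_mv (M : ℕ) (L : V3 → ℝ) (u v s t : V3) (hu : u ∈ Box M) (hv : v ∈ Box M)
    (hs : s ∈ Box M) (ht : t ∈ Box M) (huv : u ≠ v) (hus : u ≠ s) (hut : u ≠ t)
    (hvs : v ≠ s) (hvt : v ≠ t) (hst : s ≠ t) (ε : ℝ) :
    ∑ w ∈ Box M, negMulLog (mv L u v s t ε w) = ∑ w ∈ Box M, negMulLog (L w) +
      ((negMulLog (L u + ε) - negMulLog (L u)) + (negMulLog (L v + ε) - negMulLog (L v)) +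
      (negMulLog (L s - ε) - negMulLog (L s)) + (negMulLog (L t - ε) - negMulLog (L t))) := by
  have key : ∀ (z : V3) (r : ℝ), z ∈ Box M →
      ∑ w ∈ Box M, (if w = z then r else 0) = r := by
    intro z r hz
    rw [Finset.sum_ite_eq' (Box M) z, if_pos hz]
  rw [← key u (negMulLog (L u + ε) - negMulLog (L u)) hu,
    ← key v (negMulLog (L v + ε) - negMulLog (L v)) hv,
    ← key s (negMulLog (L s - ε) - negMulLog (L s)) hs,
    ← key t (negMulLog (L t - ε) - negMulLog (L t)) ht,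
    ← Finset.sum_add_distrib, ← Finset.sum_add_distrib, ← Finset.sum_add_distrib,
    ← Finset.sum_add_distrib]
  apply Finset.sum_congr rfl
  intro w _
  unfold mv
  by_cases h1 : w = u
  · subst h1
    simp [huv, hus, hut]
  · by_cases h2 : w = v
    · subst h2
      simp [h1, hvs, hvt]
    · by_cases h3 : w = s
      · subst h3
        simp [h1, h2, hst]
        ring_nf
      · by_cases h4 : w = t
        · subst h4
          simp [h1, h2, h3]
          ring_nf
        · simp [h1, h2, h3, h4]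

/-- The perturbation lemma for a maximiser of the entropy over the relaxed polytope. -/
theorem pertK (M : ℕ) (S : ℕ → ℕ) (C : ℕ → ℕ → ℝ) (L : V3 → ℝ) (hL : L ∈ KK M S C)
    (hmax : ∀ L' ∈ KK M S C, ∑ w ∈ Box M, negMulLog (L' w) ≤ ∑ w ∈ Box M, negMulLog (L w))
    (u v s t : V3) (hu : u ∈ Box M) (hv : v ∈ Box M)
    (hs : s ∈ Box M) (ht : t ∈ Box M) (huv : u ≠ v) (hus : u ≠ s) (hut : u ≠ t)
    (hvs : v ≠ s) (hvt : v ≠ t) (hst : s ≠ t)
    (m1 : ∀ p, (if u.1 = p then (1 : ℝ) else 0) + (if v.1 = p then 1 else 0) -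
      (if s.1 = p then 1 else 0) - (if t.1 = p then 1 else 0) = 0)
    (m2 : ∀ p, (if u.2.1 = p then (1 : ℝ) else 0) + (if v.2.1 = p then 1 else 0) -
      (if s.2.1 = p then 1 else 0) - (if t.2.1 = p then 1 else 0) = 0)
    (m3 : ∀ p, (if u.2.2 = p then (1 : ℝ) else 0) + (if v.2.2 = p then 1 else 0) -
      (if s.2.2 = p then 1 else 0) - (if t.2.2 = p then 1 else 0) = 0)
    (f12 : ∀ a b, (if a ≤ u.1 ∧ b ≤ u.2.1 then (1 : ℝ) else 0) +
      (if a ≤ v.1 ∧ b ≤ v.2.1 then 1 else 0) - (if a ≤ s.1 ∧ b ≤ s.2.1 then 1 else 0) -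
      (if a ≤ t.1 ∧ b ≤ t.2.1 then 1 else 0) ≤ 0)
    (f13 : ∀ a b, (if a ≤ u.1 ∧ b ≤ u.2.2 then (1 : ℝ) else 0) +
      (if a ≤ v.1 ∧ b ≤ v.2.2 then 1 else 0) - (if a ≤ s.1 ∧ b ≤ s.2.2 then 1 else 0) -
      (if a ≤ t.1 ∧ b ≤ t.2.2 then 1 else 0) ≤ 0)
    (f23 : ∀ a b, a < M → b < M → (if a ≤ u.2.1 ∧ b ≤ u.2.2 then (1 : ℝ) else 0) +
      (if a ≤ v.2.1 ∧ b ≤ v.2.2 then 1 else 0) - (if a ≤ s.2.1 ∧ b ≤ s.2.2 then 1 else 0) -
      (if a ≤ t.2.1 ∧ b ≤ t.2.2 then 1 else 0) ≤ 0 ∨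
      mass M L (fun v => a ≤ v.2.1 ∧ b ≤ v.2.2) < C a b) :
    L s * L t ≤ L u * L v := by
  obtain ⟨hL0, hLz, hL1, hL2, hL3, hL12, hL13, hL23⟩ := hL
  rcases (hL0 s).eq_or_lt with hs0 | hs0
  · rw [← hs0, zero_mul]; exact mul_nonneg (hL0 u) (hL0 v)
  rcases (hL0 t).eq_or_lt with ht0 | ht0
  · rw [← ht0, mul_zero]; exact mul_nonneg (hL0 u) (hL0 v)
  apply entropy_pert (L u) (L v) (L s) (L t) (hL0 u) (hL0 v) hs0 ht0
  have hpos : ∀ᶠ ε in 𝓝[>] (0 : ℝ), 0 < ε := self_mem_nhdsWithin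
  have hle_s : ∀ᶠ ε in 𝓝[>] (0 : ℝ), ε < L s :=
    nhdsWithin_le_nhds (eventually_lt_nhds hs0)
  have hle_t : ∀ᶠ ε in 𝓝[>] (0 : ℝ), ε < L t :=
    nhdsWithin_le_nhds (eventually_lt_nhds ht0)
  have hf23 : ∀ᶠ ε in 𝓝[>] (0 : ℝ), ∀ a ∈ range M, ∀ b ∈ range M,
      mass M (mv L u v s t ε) (fun v => a ≤ v.2.1 ∧ b ≤ v.2.2) ≤ C a b := by
    rw [Filter.eventually_all_finset]
    intro a ha
    rw [Filter.eventually_all_finset]
    intro b hb
    rw [Finset.mem_range] at ha hb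
    rcases f23 a b ha hb with h | h
    · filter_upwards [hpos] with ε hε
      rw [mass_mv M L u v s t hu hv hs ht]
      have := mul_nonneg hε.le (neg_nonneg.mpr h)
      have h2 := hL23 a b ha hb
      linarith
    · have hc : ContinuousAt (fun ε : ℝ =>
          mass M (mv L u v s t ε) (fun v => a ≤ v.2.1 ∧ b ≤ v.2.2)) 0 := by
        have : (fun ε : ℝ => mass M (mv L u v s t ε) (fun v => a ≤ v.2.1 ∧ b ≤ v.2.2)) =
            fun ε : ℝ => mass M L (fun v => a ≤ v.2.1 ∧ b ≤ v.2.2) + ε *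
            ((if a ≤ u.2.1 ∧ b ≤ u.2.2 then (1 : ℝ) else 0) +
              (if a ≤ v.2.1 ∧ b ≤ v.2.2 then 1 else 0) -
              (if a ≤ s.2.1 ∧ b ≤ s.2.2 then 1 else 0) -
              (if a ≤ t.2.1 ∧ b ≤ t.2.2 then 1 else 0)) := by
          funext ε
          rw [mass_mv M L u v s t hu hv hs ht]
        rw [this]
        fun_prop
      have h0 : mass M (mv L u v s t 0) (fun v => a ≤ v.2.1 ∧ b ≤ v.2.2) < C a b := by
        rw [mass_mv M L u v s t hu hv hs ht]
        simpa using h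
      have := hc.eventually_lt (continuousAt_const (y := C a b)) h0
      exact nhdsWithin_le_nhds (this.mono (fun ε hε => hε.le))
  filter_upwards [hpos, hle_s, hle_t, hf23] with ε hε hεs hεt hε23
  have hmem : mv L u v s t ε ∈ KK M S C := by
    refine ⟨?_, ?_, ?_, ?_, ?_, ?_, ?_, ?_⟩
    · intro w
      have := hL0 w
      unfold mv
      by_cases h1 : w = u
      · subst h1
        simp [huv, hus, hut]; linarith
      · by_cases h2 : w = v
        · subst h2
          simp [h1, hvs, hvt]; linarith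
        · by_cases h3 : w = s
          · subst h3
            simp [h1, h2, hst]; linarith
          · by_cases h4 : w = t
            · subst h4
              simp [h1, h2, h3]; linarith
            · simp [h1, h2, h3, h4]; linarith
    · intro w hw
      have h1 : w ≠ u := fun h => hw (h ▸ hu)
      have h2 : w ≠ v := fun h => hw (h ▸ hv)
      have h3 : w ≠ s := fun h => hw (h ▸ hs)
      have h4 : w ≠ t := fun h => hw (h ▸ ht)
      simp [mv, h1, h2, h3, h4, hLz w hw]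
    · intro p hp
      rw [mass_mv M L u v s t hu hv hs ht, m1 p, hL1 p hp]; ring
    · intro p hp
      rw [mass_mv M L u v s t hu hv hs ht, m2 p, hL2 p hp]; ring
    · intro p hp
      rw [mass_mv M L u v s t hu hv hs ht, m3 p, hL3 p hp]; ring
    · intro a b ha hb
      rw [mass_mv M L u v s t hu hv hs ht]
      have := mul_nonneg hε.le (neg_nonneg.mpr (f12 a b))
      have h2 := hL12 a b ha hb
      linarith
    · intro a b ha hb
      rw [mass_mv M L u v s t hu hv hs ht]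
      have := mul_nonneg hε.le (neg_nonneg.mpr (f13 a b))
      have h2 := hL13 a b ha hb
      linarith
    · intro a b ha hb
      exact hε23 a (Finset.mem_range.mpr ha) b (Finset.mem_range.mpr hb)
  have := hmax _ hmem
  rw [ent_mv M L u v s t hu hv hs ht huv hus hut hvs hvt hst] at this
  linarith

end Pool.MP_d56194_co
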