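import Mathlib
import Pool.Agent.Lib.MP_d56194_co.A3

set_option autoImplicit false

namespace Pool.MP_d56194_co

open Finset Real Filter Topology

/-- `L` maximises the entropy over the relaxed polytope. -/
def IsMaxi (M : ℕ) (S : ℕ → ℕ) (C : ℕ → ℕ → ℝ) (L : V3 → ℝ) : Prop :=
  L ∈ KK M S C ∧
    ∀ L' ∈ KK M S C, ∑ w ∈ Box M, negMulLog (L' w) ≤ ∑ w ∈ Box M, negMulLog (L w)

/-- the two dimensional margin of the last two coordinates -/
noncomputable def marg (M : ℕ) (L : V3 → ℝ) (x y : ℕ) : ℝ := ∑ p ∈ range M, L (p, x, y)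

theorem kernel_pt (M : ℕ) (S : ℕ → ℕ) (C : ℕ → ℕ → ℝ) (L : V3 → ℝ) (h : IsMaxi M S C L)
    (a y y' : ℕ) (ha : a + 1 < M) (hyy : y < y') (hy' : y' < M)
    (hsl : ∀ t, y < t → t ≤ y' →
      mass M L (fun v => a + 1 ≤ v.2.1 ∧ t ≤ v.2.2) < C (a + 1) t) :
    marg M L (a + 1) y * marg M L a y' ≤ marg M L (a + 1) y' * marg M L a y := by
  obtain ⟨hL, hmax⟩ := h
  have hL0 := hL.1
  have hyM : y < M := by omega
  have haM : a < M := by omega
  -- (3)
  have q3 : ∀ p p', p < p' → p' < M →
      L (p, a, y) * L (p', a, y') ≤ L (p, a, y') * L (p', a, y) := by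
    intro p p' hpp hp'
    apply pertK M S C L hL hmax (p, a, y') (p', a, y) (p, a, y) (p', a, y')
    any_goals (rw [mem_Box]; refine ⟨?_, ?_, ?_⟩ <;> simp only <;> omega)
    any_goals (simp only [ne_eq, Prod.mk.injEq, not_and]; omega)
    · intro q; simp only; ring
    · intro q; simp only; ring
    · intro q; simp only; ring
    · intro α β; simp only; split_ifs <;> first | (exfalso; omega) | norm_num
    · intro α β; simp only; split_ifs <;> first | (exfalso; omega) | norm_num
    · intro α β _ _; left; simp only; split_ifs <;> first | (exfalso; omega) | norm_num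
  -- slack alternative
  have hslack : ∀ α β, (α = a + 1 ∧ y < β ∧ β ≤ y') →
      mass M L (fun v => α ≤ v.2.1 ∧ β ≤ v.2.2) < C α β := by
    rintro α β ⟨rfl, h1, h2⟩
    exact hsl β h1 h2
  -- (R)
  have r1 : ∀ p, p < M → L (p, a + 1, y) * L (p, a, y') ≤ L (p, a + 1, y') * L (p, a, y) := by
    intro p hp
    apply pertK M S C L hL hmax (p, a + 1, y') (p, a, y) (p, a + 1, y) (p, a, y')
    any_goals (rw [mem_Box]; refine ⟨?_, ?_, ?_⟩ <;> simp only <;> omega)
    any_goals (simp only [ne_eq, Prod.mk.injEq, not_and]; omega)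
    · intro q; simp only; ring
    · intro q; simp only; ring
    · intro q; simp only; ring
    · intro α β; simp only; split_ifs <;> first | (exfalso; omega) | norm_num
    · intro α β; simp only; split_ifs <;> first | (exfalso; omega) | norm_num
    · intro α β _ _
      by_cases hc : α = a + 1 ∧ y < β ∧ β ≤ y'
      · right; exact hslack α β hc
      · left; simp only; split_ifs <;> first | (exfalso; omega) | norm_num
  have r2 : ∀ p, p < M → L (p, a + 1, y') * L (p, a, y) ≤ L (p, a + 1, y) * L (p, a, y') := by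
    intro p hp
    apply pertK M S C L hL hmax (p, a + 1, y) (p, a, y') (p, a + 1, y') (p, a, y)
    any_goals (rw [mem_Box]; refine ⟨?_, ?_, ?_⟩ <;> simp only <;> omega)
    any_goals (simp only [ne_eq, Prod.mk.injEq, not_and]; omega)
    · intro q; simp only; ring
    · intro q; simp only; ring
    · intro q; simp only; ring
    · intro α β; simp only; split_ifs <;> first | (exfalso; omega) | norm_num
    · intro α β; simp only; split_ifs <;> first | (exfalso; omega) | norm_num
    · intro α β _ _; left; simp only; split_ifs <;> first | (exfalso; omega) | norm_num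
  -- (X1)
  have x1 : ∀ p p', p < p' → p' < M →
      L (p, a + 1, y) * L (p', a, y') ≤ L (p, a + 1, y') * L (p', a, y) := by
    intro p p' hpp hp'
    apply pertK M S C L hL hmax (p, a + 1, y') (p', a, y) (p, a + 1, y) (p', a, y')
    any_goals (rw [mem_Box]; refine ⟨?_, ?_, ?_⟩ <;> simp only <;> omega)
    any_goals (simp only [ne_eq, Prod.mk.injEq, not_and]; omega)
    · intro q; simp only; ring
    · intro q; simp only; ring
    · intro q; simp only; ring
    · intro α β; simp only; split_ifs <;> first | (exfalso; omega) | norm_num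
    · intro α β; simp only; split_ifs <;> first | (exfalso; omega) | norm_num
    · intro α β _ _
      by_cases hc : α = a + 1 ∧ y < β ∧ β ≤ y'
      · right; exact hslack α β hc
      · left; simp only; split_ifs <;> first | (exfalso; omega) | norm_num
  -- (X2)
  have x2 : ∀ p p', p < p' → p' < M →
      L (p', a + 1, y) * L (p, a, y') ≤ L (p, a + 1, y') * L (p', a, y) := by
    intro p p' hpp hp'
    apply pertK M S C L hL hmax (p, a + 1, y') (p', a, y) (p', a + 1, y) (p, a, y')
    any_goals (rw [mem_Box]; refine ⟨?_, ?_, ?_⟩ <;> simp only <;> omega)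
    any_goals (simp only [ne_eq, Prod.mk.injEq, not_and]; omega)
    · intro q; simp only; ring
    · intro q; simp only; ring
    · intro q; simp only; ring
    · intro α β; simp only; split_ifs <;> first | (exfalso; omega) | norm_num
    · intro α β; simp only; split_ifs <;> first | (exfalso; omega) | norm_num
    · intro α β _ _
      by_cases hc : α = a + 1 ∧ y < β ∧ β ≤ y'
      · right; exact hslack α β hc
      · left; simp only; split_ifs <;> first | (exfalso; omega) | norm_num
  -- combine
  have hpair : ∀ p ∈ range M, ∀ p' ∈ range M,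
      L (p, a + 1, y) * L (p', a, y') + L (p', a + 1, y) * L (p, a, y') ≤
      L (p, a + 1, y') * L (p', a, y) + L (p', a + 1, y') * L (p, a, y) := by
    have hlt : ∀ p p', p < p' → p' < M →
        L (p, a + 1, y) * L (p', a, y') + L (p', a + 1, y) * L (p, a, y') ≤
        L (p, a + 1, y') * L (p', a, y) + L (p', a + 1, y') * L (p, a, y) := by
      intro p p' hpp hp'
      have hp : p < M := by omega
      exact alg_lemma (L (p, a + 1, y)) (L (p, a + 1, y')) (L (p, a, y)) (L (p, a, y'))
        (L (p', a + 1, y)) (L (p', a + 1, y')) (L (p', a, y)) (L (p', a, y'))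
        (hL0 _) (hL0 _) (hL0 _) (hL0 _) (le_antisymm (r1 p hp) (r2 p hp))
        (le_antisymm (r1 p' hp') (r2 p' hp')) (q3 p p' hpp hp') (x1 p p' hpp hp')
        (x2 p p' hpp hp')
    intro p hp p' hp'
    rw [Finset.mem_range] at hp hp'
    rcases lt_trichotomy p p' with h | h | h
    · exact hlt p p' h hp'
    · subst h
      have := r1 p hp
      linarith
    · have := hlt p' p h hp
      linarith
  unfold marg
  rw [Finset.sum_mul_sum, Finset.sum_mul_sum]
  have e1 : ∑ i ∈ range M, ∑ j ∈ range M, L (i, a + 1, y) * L (j, a, y') =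
      ∑ i ∈ range M, ∑ j ∈ range M, L (j, a + 1, y) * L (i, a, y') := by
    rw [Finset.sum_comm]
  have e2 : ∑ i ∈ range M, ∑ j ∈ range M, L (i, a + 1, y') * L (j, a, y) =
      ∑ i ∈ range M, ∑ j ∈ range M, L (j, a + 1, y') * L (i, a, y) := by
    rw [Finset.sum_comm]
  have e3 : ∑ i ∈ range M, ∑ j ∈ range M, (L (i, a + 1, y) * L (j, a, y') +
      L (j, a + 1, y) * L (i, a, y')) ≤
      ∑ i ∈ range M, ∑ j ∈ range M, (L (i, a + 1, y') * L (j, a, y) +
      L (j, a + 1, y') * L (i, a, y)) :=
    Finset.sum_le_sum (fun p hp => Finset.sum_le_sum (fun p' hp' => hpair p hp p' hp'))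
  simp only [Finset.sum_add_distrib] at e3
  linarith

end Pool.MP_d56194_co
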