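import Mathlib
import Pool.Agent.Lib.MP_d56194_co.A4

set_option autoImplicit false

namespace Pool.MP_d56194_co

open Finset Real Filter Topology

theorem sum_Box (M : ℕ) (f : V3 → ℝ) :
    ∑ v ∈ Box M, f v = ∑ p ∈ range M, ∑ x ∈ range M, ∑ y ∈ range M, f (p, x, y) := by
  unfold Box
  rw [Finset.sum_product]
  apply Finset.sum_congr rfl
  intro p _
  rw [Finset.sum_product]

theorem sum_Ico_ite (a M : ℕ) (f : ℕ → ℝ) :
    ∑ x ∈ Ico a M, f x = ∑ x ∈ range M, if a ≤ x then f x else 0 := by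
  rw [← Finset.sum_filter]
  apply Finset.sum_congr _ (fun _ _ => rfl)
  ext x
  simp only [Finset.mem_Ico, Finset.mem_filter, Finset.mem_range]
  omega

theorem mass_far (M : ℕ) (L : V3 → ℝ) (a b : ℕ) :
    mass M L (fun v => a ≤ v.2.1 ∧ b ≤ v.2.2) =
      ∑ x ∈ Ico a M, ∑ y ∈ Ico b M, marg M L x y := by
  unfold mass marg
  rw [sum_Box, sum_Ico_ite, Finset.sum_comm]
  apply Finset.sum_congr rfl
  intro x _
  rw [Finset.sum_comm]
  by_cases h : a ≤ x
  · rw [if_pos h, sum_Ico_ite]
    apply Finset.sum_congr rfl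
    intro y _
    by_cases h' : b ≤ y
    · simp [h, h']
    · simp [h']
  · rw [if_neg h]
    simp [h]

theorem mass_21 (M : ℕ) (L : V3 → ℝ) (x : ℕ) (hx : x < M) :
    mass M L (fun v => v.2.1 = x) = ∑ y ∈ range M, marg M L x y := by
  unfold mass marg
  rw [sum_Box, Finset.sum_comm]
  rw [Finset.sum_eq_single x]
  · rw [Finset.sum_comm]
    simp
  · intro z _ hz
    simp [hz]
  · intro h
    exact absurd (Finset.mem_range.mpr hx) h

theorem mass_22 (M : ℕ) (L : V3 → ℝ) (y : ℕ) (hy : y < M) :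
    mass M L (fun v => v.2.2 = y) = ∑ x ∈ range M, marg M L x y := by
  unfold mass marg
  rw [sum_Box, Finset.sum_comm]
  apply Finset.sum_congr rfl
  intro x _
  apply Finset.sum_congr rfl
  intro p _
  rw [Finset.sum_eq_single y]
  · simp
  · intro z _ hz
    simp [hz]
  · intro h
    exact absurd (Finset.mem_range.mpr hy) h

theorem sum_ind_lt (M s : ℕ) (h : s ≤ M) (a : ℕ) :
    ∑ x ∈ range M, (if a ≤ x ∧ x < s then (1 : ℝ) else 0) = ((s - a : ℕ) : ℝ) := by
  rw [← Finset.sum_filter, Finset.sum_const, nsmul_eq_mul, mul_one]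
  congr 1
  rw [← Nat.card_Ico]
  congr 1
  ext x
  simp only [Finset.mem_Ico, Finset.mem_filter, Finset.mem_range]
  omega

theorem sum_ind_lt' (M s : ℕ) (h : s ≤ M) :
    ∑ x ∈ range M, (if x < s then (1 : ℝ) else 0) = (s : ℝ) := by
  have := sum_ind_lt M s h 0
  simpa using this

/-- The two dimensional margins of a maximiser are the indicator of the shape. -/
theorem marg_eq (M : ℕ) (S : ℕ → ℕ) (hM : ∀ x, S x ≤ M) (hsc : ∀ x y, y < S x ↔ x < S y)
    (C : ℕ → ℕ → ℝ)
    (hC : ∀ a b, C a b = ∑ x ∈ Ico a M, ∑ y ∈ Ico b M, if y < S x then (1 : ℝ) else 0)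
    (L : V3 → ℝ) (h : IsMaxi M S C L) (x y : ℕ) (hx : x < M) (hy : y < M) :
    marg M L x y = if y < S x then 1 else 0 := by
  have hanti : Antitone S := by
    intro x x' hxx
    by_contra hlt
    push Not at hlt
    have h1 := (hsc x' (S x)).mp hlt
    have h2 := (hsc x (S x)).mpr (by omega)
    omega
  obtain ⟨hL0, hLz, hL1, hL2, hL3, hL12, hL13, hL23⟩ := h.1
  have hD : ∀ a b, ∑ x ∈ Ico a M, ∑ y ∈ Ico b M,
      ((if y < S x then (1 : ℝ) else 0) - marg M L x y) =
      C a b - mass M L (fun v => a ≤ v.2.1 ∧ b ≤ v.2.2) := by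
    intro a b
    rw [hC, mass_far, ← Finset.sum_sub_distrib]
    apply Finset.sum_congr rfl
    intro x _
    rw [Finset.sum_sub_distrib]
  have hzero := maxprin M S hanti (marg M L) (fun x y => Finset.sum_nonneg (fun p _ => hL0 _))
    (fun a b => ∑ x ∈ Ico a M, ∑ y ∈ Ico b M,
      ((if y < S x then (1 : ℝ) else 0) - marg M L x y)) (fun a b => rfl)
    (by
      intro b
      rw [Finset.sum_comm]
      apply Finset.sum_eq_zero
      intro y hy
      have hyM : y < M := (Finset.mem_Ico.mp hy).2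
      rw [← Finset.range_eq_Ico, Finset.sum_sub_distrib, ← mass_22 M L y hyM, hL3 y hyM]
      have : ∑ x ∈ range M, (if y < S x then (1 : ℝ) else 0) =
          ∑ x ∈ range M, (if x < S y then (1 : ℝ) else 0) := by
        apply Finset.sum_congr rfl
        intro x _
        simp only [hsc x y]
      rw [this, sum_ind_lt' M (S y) (hM y)]
      ring)
    (by
      intro a
      apply Finset.sum_eq_zero
      intro x hx
      have hxM : x < M := (Finset.mem_Ico.mp hx).2
      rw [← Finset.range_eq_Ico, Finset.sum_sub_distrib, ← mass_21 M L x hxM, hL2 x hxM,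
        sum_ind_lt' M (S x) (hM x)]
      ring)
    (by
      intro a b
      by_cases ha : a < M
      · by_cases hb : b < M
        · rw [hD]
          have := hL23 a b ha hb
          linarith
        · rw [Finset.Ico_eq_empty hb]
          simp
      · rw [Finset.Ico_eq_empty ha]
        simp)
    (by
      intro a y y' ha hyy hy' hsl
      apply kernel_pt M S C L h a y y' ha hyy hy'
      intro t h1 h2
      have := hsl t h1 h2
      rw [hD] at this
      linarith)
  exact eq_of_Delta_zero M (fun x y => if y < S x then (1 : ℝ) else 0) (marg M L) hzero x y hx hy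

/-! ### rotation -/

/-- cyclic rotation of the coordinates -/
def rot (v : V3) : V3 := (v.2.1, v.2.2, v.1)

theorem sum_rot (M : ℕ) (f : V3 → ℝ) : ∑ v ∈ Box M, f (rot v) = ∑ v ∈ Box M, f v := by
  apply Finset.sum_nbij' rot (fun v => (v.2.2, v.1, v.2.1))
  · intro v hv
    rw [mem_Box] at hv ⊢
    simp only [rot]; tauto
  · intro v hv
    rw [mem_Box] at hv ⊢
    simp only; tauto
  · intro v _; rfl
  · intro v _; rfl
  · intro v _; rfl

theorem mass_rot (M : ℕ) (L : V3 → ℝ) (Q Q' : V3 → Prop) [DecidablePred Q] [DecidablePred Q']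
    (h : ∀ v, Q v ↔ Q' (rot v)) : mass M (fun v => L (rot v)) Q = mass M L Q' := by
  unfold mass
  rw [← sum_rot M (fun v => if Q' v then L v else 0)]
  apply Finset.sum_congr rfl
  intro v _
  simp only [h v]

theorem KK_rot (M : ℕ) (S : ℕ → ℕ) (C : ℕ → ℕ → ℝ) (hC : ∀ a b, C a b = C b a) (L : V3 → ℝ)
    (h : L ∈ KK M S C) : (fun v => L (rot v)) ∈ KK M S C := by
  obtain ⟨hL0, hLz, hL1, hL2, hL3, hL12, hL13, hL23⟩ := h
  refine ⟨fun v => hL0 _, ?_, ?_, ?_, ?_, ?_, ?_, ?_⟩
  · intro v hv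
    apply hLz
    intro h'
    apply hv
    rw [mem_Box] at h' ⊢
    simp only [rot] at h'
    tauto
  · intro p hp
    rw [← hL3 p hp]
    exact mass_rot M L _ _ (fun v => Iff.rfl)
  · intro p hp
    rw [← hL1 p hp]
    exact mass_rot M L _ _ (fun v => Iff.rfl)
  · intro p hp
    rw [← hL2 p hp]
    exact mass_rot M L _ _ (fun v => Iff.rfl)
  · intro a b ha hb
    have e : mass M (fun v => L (rot v)) (fun v => a ≤ v.1 ∧ b ≤ v.2.1) =
        mass M L (fun v => b ≤ v.1 ∧ a ≤ v.2.2) :=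
      mass_rot M L _ _ (fun v => by simp only [rot]; tauto)
    rw [e, hC]
    exact hL13 b a hb ha
  · intro a b ha hb
    have e : mass M (fun v => L (rot v)) (fun v => a ≤ v.1 ∧ b ≤ v.2.2) =
        mass M L (fun v => b ≤ v.2.1 ∧ a ≤ v.2.2) :=
      mass_rot M L _ _ (fun v => by simp only [rot]; tauto)
    rw [e, hC]
    exact hL23 b a hb ha
  · intro a b ha hb
    have e : mass M (fun v => L (rot v)) (fun v => a ≤ v.2.1 ∧ b ≤ v.2.2) =
        mass M L (fun v => a ≤ v.1 ∧ b ≤ v.2.1) :=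
      mass_rot M L _ _ (fun v => Iff.rfl)
    rw [e]
    exact hL12 a b ha hb

theorem IsMaxi_rot (M : ℕ) (S : ℕ → ℕ) (C : ℕ → ℕ → ℝ) (hC : ∀ a b, C a b = C b a)
    (L : V3 → ℝ) (h : IsMaxi M S C L) : IsMaxi M S C (fun v => L (rot v)) := by
  refine ⟨KK_rot M S C hC L h.1, fun L' hL' => ?_⟩
  rw [sum_rot M (fun v => negMulLog (L v))]
  exact h.2 L' hL'

/-! ### existence of a maximiser -/

theorem continuous_mass (M : ℕ) (Q : V3 → Prop) [DecidablePred Q] :
    Continuous (fun L : V3 → ℝ => mass M L Q) := by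
  unfold mass
  apply continuous_finsetSum
  intro v _
  split_ifs
  · exact continuous_apply v
  · exact continuous_const

theorem isClosed_KK (M : ℕ) (S : ℕ → ℕ) (C : ℕ → ℕ → ℝ) : IsClosed (KK M S C) := by
  have e : KK M S C = (⋂ v : V3, {L : V3 → ℝ | 0 ≤ L v}) ∩
      ((⋂ v : V3, {L : V3 → ℝ | v ∉ Box M → L v = 0}) ∩
      ((⋂ p : ℕ, {L : V3 → ℝ | p < M → mass M L (fun v => v.1 = p) = S p}) ∩
      ((⋂ p : ℕ, {L : V3 → ℝ | p < M → mass M L (fun v => v.2.1 = p) = S p}) ∩
      ((⋂ p : ℕ, {L : V3 → ℝ | p < M → mass M L (fun v => v.2.2 = p) = S p}) ∩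
      ((⋂ a : ℕ, ⋂ b : ℕ, {L : V3 → ℝ | a < M → b < M →
          mass M L (fun v => a ≤ v.1 ∧ b ≤ v.2.1) ≤ C a b}) ∩
      ((⋂ a : ℕ, ⋂ b : ℕ, {L : V3 → ℝ | a < M → b < M →
          mass M L (fun v => a ≤ v.1 ∧ b ≤ v.2.2) ≤ C a b}) ∩
      (⋂ a : ℕ, ⋂ b : ℕ, {L : V3 → ℝ | a < M → b < M →
          mass M L (fun v => a ≤ v.2.1 ∧ b ≤ v.2.2) ≤ C a b}))))))) := by
    ext L
    simp [KK]
  rw [e]
  have himp : ∀ (P : Prop) (A : Set (V3 → ℝ)), IsClosed A → IsClosed {L : V3 → ℝ | P → L ∈ A} := by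
    intro P A hA
    by_cases hP : P
    · simpa [hP] using hA
    · simp [hP]
  refine IsClosed.inter ?_ (IsClosed.inter ?_ (IsClosed.inter ?_ (IsClosed.inter ?_
    (IsClosed.inter ?_ (IsClosed.inter ?_ (IsClosed.inter ?_ ?_))))))
  · exact isClosed_iInter (fun v => isClosed_le continuous_const (continuous_apply v))
  · exact isClosed_iInter (fun v => himp _ {L : V3 → ℝ | L v = 0}
      (isClosed_eq (continuous_apply v) continuous_const))
  · exact isClosed_iInter (fun p => himp _ {L : V3 → ℝ | mass M L (fun v => v.1 = p) = S p}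
      (isClosed_eq (continuous_mass M _) continuous_const))
  · exact isClosed_iInter (fun p => himp _ {L : V3 → ℝ | mass M L (fun v => v.2.1 = p) = S p}
      (isClosed_eq (continuous_mass M _) continuous_const))
  · exact isClosed_iInter (fun p => himp _ {L : V3 → ℝ | mass M L (fun v => v.2.2 = p) = S p}
      (isClosed_eq (continuous_mass M _) continuous_const))
  · refine isClosed_iInter (fun a => isClosed_iInter (fun b => himp _ {L : V3 → ℝ | b < M →
          mass M L (fun v => a ≤ v.1 ∧ b ≤ v.2.1) ≤ C a b} (himp _ {L : V3 → ℝ |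
          mass M L (fun v => a ≤ v.1 ∧ b ≤ v.2.1) ≤ C a b} ?_)))
    exact isClosed_le (continuous_mass M _) continuous_const
  · refine isClosed_iInter (fun a => isClosed_iInter (fun b => himp _ {L : V3 → ℝ | b < M →
          mass M L (fun v => a ≤ v.1 ∧ b ≤ v.2.2) ≤ C a b} (himp _ {L : V3 → ℝ |
          mass M L (fun v => a ≤ v.1 ∧ b ≤ v.2.2) ≤ C a b} ?_)))
    exact isClosed_le (continuous_mass M _) continuous_const
  · refine isClosed_iInter (fun a => isClosed_iInter (fun b => himp _ {L : V3 → ℝ | b < M →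
          mass M L (fun v => a ≤ v.2.1 ∧ b ≤ v.2.2) ≤ C a b} (himp _ {L : V3 → ℝ |
          mass M L (fun v => a ≤ v.2.1 ∧ b ≤ v.2.2) ≤ C a b} ?_)))
    exact isClosed_le (continuous_mass M _) continuous_const

theorem exists_maxi (M : ℕ) (S : ℕ → ℕ) (hM : ∀ x, S x ≤ M) (C : ℕ → ℕ → ℝ)
    (hne : (KK M S C).Nonempty) : ∃ L, IsMaxi M S C L := by
  have hsub : KK M S C ⊆ Set.Icc (fun _ => (0 : ℝ)) (fun _ => (M : ℝ)) := by
    rintro L ⟨hL0, hLz, hL1, hL2, hL3, hL12, hL13, hL23⟩
    refine ⟨fun v => hL0 v, fun v => ?_⟩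
    by_cases hv : v ∈ Box M
    · have hp : v.1 < M := ((mem_Box M v).mp hv).1
      have h1 := hL1 v.1 hp
      have h2 : L v ≤ mass M L (fun w => w.1 = v.1) := by
        unfold mass
        have := Finset.single_le_sum (f := fun w : V3 => if w.1 = v.1 then L w else 0)
          (s := Box M) (fun w _ => by
            split_ifs
            · exact hL0 w
            · exact le_refl _) hv
        simpa using this
      have h3 : ((S v.1 : ℕ) : ℝ) ≤ (M : ℝ) := by exact_mod_cast hM v.1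
      simp only
      linarith
    · rw [hLz v hv]
      simp
  have hcomp : IsCompact (KK M S C) := IsCompact.of_isClosed_subset isCompact_Icc
    (isClosed_KK M S C) hsub
  have hcont : Continuous (fun L : V3 → ℝ => ∑ w ∈ Box M, negMulLog (L w)) := by
    apply continuous_finsetSum
    intro w _
    exact continuous_negMulLog.comp (continuous_apply w)
  obtain ⟨L, hL, hmax⟩ := hcomp.exists_isMaxOn hne hcont.continuousOn
  exact ⟨L, hL, fun L' hL' => hmax hL'⟩

end Pool.MP_d56194_co
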