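import Mathlib

set_option autoImplicit false

namespace Pool.MP_d56194_co

open Finset

/-- Rationalisation: finitely many nonnegative reals stay nonnegative under some
`ℚ`-linear functional normalised at `1`. -/
theorem exists_rational_functional {ι : Type} [Fintype ι] (v : ι → ℝ) (hv : ∀ i, 0 ≤ v i) :
    ∃ φ : ℝ →ₗ[ℚ] ℚ, φ 1 = 1 ∧ ∀ i, 0 ≤ φ (v i) := by
  classical
  let W : Submodule ℚ ℝ := Submodule.span ℚ (Set.range (fun o : Option ι => o.elim (1 : ℝ) v))
  have hfin : FiniteDimensional ℚ W := FiniteDimensional.span_of_finite ℚ (Set.finite_range _)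
  let b := Module.finBasis ℚ W
  set r := Module.finrank ℚ W with hr
  let z : Option ι → W := fun o => ⟨o.elim (1 : ℝ) v, Submodule.subset_span ⟨o, rfl⟩⟩
  have hz : ∀ o, ((z o : W) : ℝ) = ∑ j, ((b.repr (z o) j : ℚ) : ℝ) * ((b j : W) : ℝ) := by
    intro o
    have h1 := b.sum_repr (z o)
    have h2 := congrArg (fun w : W => (w : ℝ)) h1
    simp only [Submodule.coe_sum, Submodule.coe_smul] at h2
    rw [← h2]
    apply Finset.sum_congr rfl
    intro j _
    rw [Rat.smul_def]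
  -- the open set
  let O : Set (Fin r → ℝ) := ⋂ o : Option ι, {t | 0 < ((z o : W) : ℝ) →
    0 < ∑ j, ((b.repr (z o) j : ℚ) : ℝ) * t j}
  have hO : IsOpen O := by
    apply isOpen_iInter_of_finite
    intro o
    by_cases h : 0 < ((z o : W) : ℝ)
    · have : {t : Fin r → ℝ | 0 < ((z o : W) : ℝ) →
          0 < ∑ j, ((b.repr (z o) j : ℚ) : ℝ) * t j} =
          {t : Fin r → ℝ | 0 < ∑ j, ((b.repr (z o) j : ℚ) : ℝ) * t j} := by
        ext t; simp [h]
      rw [this]
      exact isOpen_lt continuous_const (by fun_prop)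
    · have : {t : Fin r → ℝ | 0 < ((z o : W) : ℝ) →
          0 < ∑ j, ((b.repr (z o) j : ℚ) : ℝ) * t j} = Set.univ := by
        ext t; simp [h]
      rw [this]
      exact isOpen_univ
  have hbO : (fun j => ((b j : W) : ℝ)) ∈ O := by
    rw [Set.mem_iInter]
    intro o ho
    rw [← hz o]
    exact ho
  have hdense : DenseRange (fun q : Fin r → ℚ => fun j => ((q j : ℚ) : ℝ)) := by
    have := DenseRange.piMap (fun _ : Fin r => Rat.denseRange_cast (𝕜 := ℝ))
    exact this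
  obtain ⟨q, hq⟩ := hdense.exists_mem_open hO ⟨_, hbO⟩
  -- the functional
  let ψ : W →ₗ[ℚ] ℚ := ∑ j, (q j) • (b.coord j)
  have hψ : ∀ w : W, ψ w = ∑ j, (b.repr w j) * q j := by
    intro w
    simp only [ψ, LinearMap.sum_apply, LinearMap.smul_apply, Module.Basis.coord_apply, smul_eq_mul]
    apply Finset.sum_congr rfl
    intro j _
    ring
  obtain ⟨g, hg⟩ := LinearMap.exists_extend ψ
  have hg' : ∀ w : W, g (w : ℝ) = ψ w := by
    intro w
    rw [← hg]
    rfl
  have hpos : ∀ o : Option ι, 0 < ((z o : W) : ℝ) → 0 < g ((z o : W) : ℝ) := by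
    intro o ho
    rw [hg', hψ]
    have h1 := Set.mem_iInter.mp hq o ho
    have h2 : ((∑ j, (b.repr (z o) j) * q j : ℚ) : ℝ) =
        ∑ j, ((b.repr (z o) j : ℚ) : ℝ) * ((q j : ℚ) : ℝ) := by
      push_cast
      rfl
    have h3 : (0 : ℝ) < ((∑ j, (b.repr (z o) j) * q j : ℚ) : ℝ) := by
      rw [h2]; exact h1
    exact_mod_cast h3
  have h1pos : 0 < g 1 := hpos none (by simp [z])
  refine ⟨(g 1)⁻¹ • g, ?_, ?_⟩
  · rw [LinearMap.smul_apply, smul_eq_mul, inv_mul_cancel₀ h1pos.ne']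
  · intro i
    rw [LinearMap.smul_apply, smul_eq_mul]
    apply mul_nonneg (inv_nonneg.mpr h1pos.le)
    rcases (hv i).eq_or_lt with h | h
    · rw [← h, map_zero]
    · exact (hpos (some i) h).le

/-- MODULE C: from a real solution to an integral solution with margins `D ^ 2`. -/
theorem integral_multiple (m N : ℕ) (lam : ℕ → ℕ)
    (h : ∃ U : ℕ → ℕ → ℕ → ℝ, (∀ i x y, 0 ≤ U i x y) ∧
      (∀ i x, i < m → x < N → ∑ y ∈ range N, U i x y = if x < lam i then 1 else 0) ∧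
      (∀ i y, i < m → y < N → ∑ x ∈ range N, U i x y = if y < lam i then 1 else 0) ∧
      (∀ x y, x < N → y < N → ∑ i ∈ range m, U i x y ≤ 1)) :
    ∃ D : ℕ, 0 < D ∧ ∀ n : ℕ, 0 < n → ∃ u : ℕ → ℕ → ℕ → ℕ,
      (∀ i x, i < m → x < N → ∑ y ∈ range N, u i x y = if x < lam i then (n * D) ^ 2 else 0) ∧
      (∀ i y, i < m → y < N → ∑ x ∈ range N, u i x y = if y < lam i then (n * D) ^ 2 else 0) ∧
      (∀ x y, x < N → y < N → ∑ i ∈ range m, u i x y ≤ (n * D) ^ 2) := by
  obtain ⟨U, hU0, hU1, hU2, hU3⟩ := h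
  obtain ⟨φ, hφ1, hφ⟩ := exists_rational_functional
    (ι := (Fin m × Fin N × Fin N) ⊕ (Fin N × Fin N))
    (Sum.elim (fun z => U z.1 z.2.1 z.2.2) (fun z => 1 - ∑ i ∈ range m, U i z.1 z.2))
    (by
      rintro (z | z)
      · exact hU0 _ _ _
      · simp only [Sum.elim_inr]
        have := hU3 z.1 z.2 z.1.2 z.2.2
        linarith)
  have hφ0 : ∀ i x y, i < m → x < N → y < N → 0 ≤ φ (U i x y) := by
    intro i x y hi hx hy
    exact hφ (Sum.inl (⟨i, hi⟩, ⟨x, hx⟩, ⟨y, hy⟩))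
  have hφc : ∀ x y, x < N → y < N → ∑ i ∈ range m, φ (U i x y) ≤ 1 := by
    intro x y hx hy
    have := hφ (Sum.inr (⟨x, hx⟩, ⟨y, hy⟩))
    simp only [Sum.elim_inr, map_sub, map_sum, hφ1] at this
    linarith
  let box : Finset (ℕ × ℕ × ℕ) := range m ×ˢ range N ×ˢ range N
  let D : ℕ := ∏ z ∈ box, (φ (U z.1 z.2.1 z.2.2)).den
  have hD : 0 < D := Finset.prod_pos (fun z _ => Rat.den_pos _)
  refine ⟨D, hD, fun n hn => ?_⟩
  set K : ℕ := (n * D) ^ 2 with hK
  let u : ℕ → ℕ → ℕ → ℕ := fun i x y =>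
    K / (φ (U i x y)).den * (φ (U i x y)).num.toNat
  have hu : ∀ i x y, i < m → x < N → y < N → ((u i x y : ℕ) : ℚ) = K * φ (U i x y) := by
    intro i x y hi hx hy
    have h1 : (φ (U i x y)).den ∣ K := by
      have : (φ (U i x y)).den ∣ D :=
        Finset.dvd_prod_of_mem (fun z : ℕ × ℕ × ℕ => (φ (U z.1 z.2.1 z.2.2)).den)
          (show ((i, x, y) : ℕ × ℕ × ℕ) ∈ box by simp [box, hi, hx, hy])
      rw [hK, sq]
      exact Dvd.dvd.mul_left (Dvd.dvd.mul_left this n) (n * D)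
    have h2 : 0 ≤ (φ (U i x y)).num := Rat.num_nonneg.mpr (hφ0 i x y hi hx hy)
    have h3 : (((φ (U i x y)).num.toNat : ℕ) : ℚ) = ((φ (U i x y)).num : ℚ) := by
      have := Int.toNat_of_nonneg h2
      exact_mod_cast this
    have h4 : ((φ (U i x y)).den : ℚ) ≠ 0 := by
      exact_mod_cast (Rat.den_pos _).ne'
    simp only [u]
    rw [Nat.cast_mul, h3, Nat.cast_div h1 h4]
    conv_rhs => rw [← Rat.num_div_den (φ (U i x y))]
    field_simp
  refine ⟨u, ?_, ?_, ?_⟩
  · intro i x hi hx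
    have h1 : ((∑ y ∈ range N, u i x y : ℕ) : ℚ) = ((if x < lam i then K else 0 : ℕ) : ℚ) := by
      rw [Nat.cast_sum, Finset.sum_congr rfl (fun y hy => hu i x y hi hx (Finset.mem_range.mp hy)),
        ← Finset.mul_sum, ← map_sum, hU1 i x hi hx]
      split_ifs
      · rw [hφ1, mul_one]
      · simp
    exact_mod_cast h1
  · intro i y hi hy
    have h1 : ((∑ x ∈ range N, u i x y : ℕ) : ℚ) = ((if y < lam i then K else 0 : ℕ) : ℚ) := by
      rw [Nat.cast_sum, Finset.sum_congr rfl (fun x hx => hu i x y hi (Finset.mem_range.mp hx) hy),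
        ← Finset.mul_sum, ← map_sum, hU2 i y hi hy]
      split_ifs
      · rw [hφ1, mul_one]
      · simp
    exact_mod_cast h1
  · intro x y hx hy
    have h1 : ((∑ i ∈ range m, u i x y : ℕ) : ℚ) ≤ ((K : ℕ) : ℚ) := by
      rw [Nat.cast_sum, Finset.sum_congr rfl (fun i hi => hu i x y (Finset.mem_range.mp hi) hx hy),
        ← Finset.mul_sum]
      have h2 := hφc x y hx hy
      have h3 : (0 : ℚ) ≤ (K : ℚ) := Nat.cast_nonneg _
      calc (K : ℚ) * ∑ i ∈ range m, φ (U i x y) ≤ K * 1 := mul_le_mul_of_nonneg_left h2 h3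
        _ = K := mul_one _
    exact_mod_cast h1

end Pool.MP_d56194_co
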