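import Mathlib

set_option autoImplicit false

namespace Pool.MP_d56194_co

open Finset

/-- Koenig's edge colouring theorem for regular bipartite multigraphs (edges in `s`). -/
theorem koenig_regular {E A B : Type} [DecidableEq E] [DecidableEq A] [DecidableEq B]
    [Fintype A] [Fintype B] (f : E → A) (g : E → B)
    (hAB : Fintype.card A = Fintype.card B) (q : ℕ) :
    ∀ s : Finset E, (∀ a, (s.filter (fun e => f e = a)).card = q) →
      (∀ b, (s.filter (fun e => g e = b)).card = q) →
      ∃ κ : E → ℕ, (∀ e ∈ s, κ e < q) ∧
        (∀ e ∈ s, ∀ e' ∈ s, f e = f e' → κ e = κ e' → e = e') ∧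
        (∀ e ∈ s, ∀ e' ∈ s, g e = g e' → κ e = κ e' → e = e') := by
  induction q with
  | zero =>
    intro s hf _
    have hs : s = ∅ := by
      rw [Finset.eq_empty_iff_forall_notMem]
      intro e he
      have := Finset.card_eq_zero.mp (hf (f e))
      have h2 : e ∈ s.filter (fun e' => f e' = f e) := Finset.mem_filter.mpr ⟨he, rfl⟩
      rw [this] at h2
      exact absurd h2 (Finset.notMem_empty e)
    subst hs
    exact ⟨fun _ => 0, by simp, by simp, by simp⟩
  | succ q ih =>
    intro s hf hg
    -- Hall
    have hall : ∀ S : Finset A, S.card ≤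
        (S.biUnion (fun a => (s.filter (fun e => f e = a)).image g)).card := by
      intro S
      set T := S.biUnion (fun a => (s.filter (fun e => f e = a)).image g) with hT
      have h1 : (s.filter (fun e => f e ∈ S)).card = S.card * (q + 1) := by
        have hmap : ∀ e ∈ s.filter (fun e => f e ∈ S), f e ∈ S :=
          fun e he => (Finset.mem_filter.mp he).2
        rw [Finset.card_eq_sum_card_fiberwise hmap]
        rw [Finset.sum_congr rfl (g := fun _ => q + 1)]
        · rw [Finset.sum_const, smul_eq_mul]
        · intro a ha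
          rw [← hf a]
          congr 1
          ext e
          simp only [Finset.mem_filter]
          constructor
          · rintro ⟨⟨h1, _⟩, h2⟩; exact ⟨h1, h2⟩
          · rintro ⟨h1, h2⟩; exact ⟨⟨h1, by rw [h2]; exact ha⟩, h2⟩
      have h2 : (s.filter (fun e => g e ∈ T)).card = T.card * (q + 1) := by
        have hmap : ∀ e ∈ s.filter (fun e => g e ∈ T), g e ∈ T :=
          fun e he => (Finset.mem_filter.mp he).2
        rw [Finset.card_eq_sum_card_fiberwise hmap]
        rw [Finset.sum_congr rfl (g := fun _ => q + 1)]
        · rw [Finset.sum_const, smul_eq_mul]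
        · intro a ha
          rw [← hg a]
          congr 1
          ext e
          simp only [Finset.mem_filter]
          constructor
          · rintro ⟨⟨h1, _⟩, h2⟩; exact ⟨h1, h2⟩
          · rintro ⟨h1, h2⟩; exact ⟨⟨h1, by rw [h2]; exact ha⟩, h2⟩
      have h3 : s.filter (fun e => f e ∈ S) ⊆ s.filter (fun e => g e ∈ T) := by
        intro e he
        rw [Finset.mem_filter] at he ⊢
        refine ⟨he.1, ?_⟩
        rw [hT, Finset.mem_biUnion]
        exact ⟨f e, he.2, Finset.mem_image.mpr ⟨e, Finset.mem_filter.mpr ⟨he.1, rfl⟩, rfl⟩⟩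
      have h4 := Finset.card_le_card h3
      rw [h1, h2] at h4
      exact Nat.le_of_mul_le_mul_right h4 (Nat.succ_pos q)
    obtain ⟨φ, hφinj, hφ⟩ := (Finset.all_card_le_biUnion_card_iff_exists_injective _).mp hall
    have hφbij : Function.Bijective φ :=
      (Fintype.bijective_iff_injective_and_card φ).mpr ⟨hφinj, hAB⟩
    have hm : ∀ a, ∃ e, e ∈ s ∧ f e = a ∧ g e = φ a := by
      intro a
      have := hφ a
      rw [Finset.mem_image] at this
      obtain ⟨e, he, hge⟩ := this
      rw [Finset.mem_filter] at he
      exact ⟨e, he.1, he.2, hge⟩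
    choose m hms hmf hmg using hm
    set s' := s \ (Finset.univ.image m) with hs'
    have hmem : ∀ e, e ∈ Finset.univ.image m ↔ m (f e) = e := by
      intro e
      rw [Finset.mem_image]
      constructor
      · rintro ⟨a, _, rfl⟩
        rw [hmf a]
      · intro h
        exact ⟨f e, Finset.mem_univ _, h⟩
    have hf' : ∀ a, (s'.filter (fun e => f e = a)).card = q := by
      intro a
      have e1 : s'.filter (fun e => f e = a) = (s.filter (fun e => f e = a)).erase (m a) := by
        ext e
        rw [hs', Finset.mem_filter, Finset.mem_sdiff, hmem, Finset.mem_erase, Finset.mem_filter]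
        constructor
        · rintro ⟨⟨h1, h2⟩, h3⟩
          subst h3
          exact ⟨fun h => h2 h.symm, h1, rfl⟩
        · rintro ⟨h1, h2, h3⟩
          subst h3
          exact ⟨⟨h2, fun h => h1 h.symm⟩, rfl⟩
      rw [e1, Finset.card_erase_of_mem (Finset.mem_filter.mpr ⟨hms a, hmf a⟩), hf a]
      rfl
    have hg' : ∀ b, (s'.filter (fun e => g e = b)).card = q := by
      intro b
      obtain ⟨a, ha⟩ := hφbij.2 b
      have e1 : s'.filter (fun e => g e = b) = (s.filter (fun e => g e = b)).erase (m a) := by
        ext e
        rw [hs', Finset.mem_filter, Finset.mem_sdiff, hmem, Finset.mem_erase, Finset.mem_filter]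
        constructor
        · rintro ⟨⟨h1, h2⟩, h3⟩
          refine ⟨fun h => ?_, h1, h3⟩
          rw [h, hmf a] at h2
          exact h2 rfl
        · rintro ⟨h1, h2, h3⟩
          refine ⟨⟨h2, fun h => ?_⟩, h3⟩
          have h4 : g e = φ (f e) := by
            rw [← hmg (f e), h]
          have h5 : f e = a := hφinj (by rw [← h4, h3, ha])
          rw [h5] at h
          exact h1 h.symm
      rw [e1, Finset.card_erase_of_mem (Finset.mem_filter.mpr ⟨hms a, by rw [hmg a, ha]⟩), hg b]
      rfl
    obtain ⟨κ, hκ1, hκ2, hκ3⟩ := ih s' hf' hg'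
    refine ⟨fun e => if m (f e) = e then q else κ e, ?_, ?_, ?_⟩
    · intro e he
      simp only
      split_ifs with h
      · exact Nat.lt_succ_self q
      · have : e ∈ s' := by
          rw [hs', Finset.mem_sdiff, hmem]; exact ⟨he, h⟩
        exact Nat.lt_succ_of_lt (hκ1 e this)
    · intro e he e' he' hff hκ
      simp only at hκ
      by_cases h : m (f e) = e
      · by_cases h' : m (f e') = e'
        · rw [← h, ← h', hff]
        · have : e' ∈ s' := by
            rw [hs', Finset.mem_sdiff, hmem]; exact ⟨he', h'⟩
          rw [if_pos h, if_neg h'] at hκ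
          have := hκ1 e' this
          omega
      · have hes : e ∈ s' := by
          rw [hs', Finset.mem_sdiff, hmem]; exact ⟨he, h⟩
        by_cases h' : m (f e') = e'
        · rw [if_neg h, if_pos h'] at hκ
          have := hκ1 e hes
          omega
        · have : e' ∈ s' := by
            rw [hs', Finset.mem_sdiff, hmem]; exact ⟨he', h'⟩
          rw [if_neg h, if_neg h'] at hκ
          exact hκ2 e hes e' this hff hκ
    · intro e he e' he' hff hκ
      simp only at hκ
      by_cases h : m (f e) = e
      · by_cases h' : m (f e') = e'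
        · have h1 : g e = φ (f e) := by rw [← hmg (f e), h]
          have h2 : g e' = φ (f e') := by rw [← hmg (f e'), h']
          have h3 : f e = f e' := hφinj (by rw [← h1, ← h2, hff])
          rw [← h, ← h', h3]
        · have : e' ∈ s' := by
            rw [hs', Finset.mem_sdiff, hmem]; exact ⟨he', h'⟩
          rw [if_pos h, if_neg h'] at hκ
          have := hκ1 e' this
          omega
      · have hes : e ∈ s' := by
          rw [hs', Finset.mem_sdiff, hmem]; exact ⟨he, h⟩
        by_cases h' : m (f e') = e'
        · rw [if_neg h, if_pos h'] at hκ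
          have := hκ1 e hes
          omega
        · have : e' ∈ s' := by
            rw [hs', Finset.mem_sdiff, hmem]; exact ⟨he', h'⟩
          rw [if_neg h, if_neg h'] at hκ
          exact hκ3 e hes e' this hff hκ

/-- Koenig's edge colouring theorem for bipartite multigraphs of maximum degree `q`. -/
theorem koenig {E A B : Type} [Fintype E] [DecidableEq E] [DecidableEq A] [DecidableEq B]
    [Fintype A] [Fintype B] (f : E → A) (g : E → B) (q : ℕ)
    (hf : ∀ a, (univ.filter (fun e => f e = a)).card ≤ q)
    (hg : ∀ b, (univ.filter (fun e => g e = b)).card ≤ q) :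
    ∃ κ : E → ℕ, (∀ e, κ e < q) ∧ (∀ e e', f e = f e' → κ e = κ e' → e = e') ∧
      (∀ e e', g e = g e' → κ e = κ e' → e = e') := by
  classical
  let dA : A → ℕ := fun a => (univ.filter (fun e => f e = a)).card
  let dB : B → ℕ := fun b => (univ.filter (fun e => g e = b)).card
  let F : ((E ⊕ E) ⊕ ((Σ a : A, Fin (q - dA a)) ⊕ (Σ b : B, Fin (q - dB b)))) → A ⊕ B :=
    Sum.elim (Sum.elim (fun e => Sum.inl (f e)) (fun e => Sum.inr (g e)))
      (Sum.elim (fun z => Sum.inl z.1) (fun z => Sum.inr z.1))
  let G : ((E ⊕ E) ⊕ ((Σ a : A, Fin (q - dA a)) ⊕ (Σ b : B, Fin (q - dB b)))) → B ⊕ A :=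
    Sum.elim (Sum.elim (fun e => Sum.inl (g e)) (fun e => Sum.inr (f e)))
      (Sum.elim (fun z => Sum.inr z.1) (fun z => Sum.inl z.1))
  have hF : ∀ v, ((univ : Finset ((E ⊕ E) ⊕ ((Σ a : A, Fin (q - dA a)) ⊕
      (Σ b : B, Fin (q - dB b))))).filter (fun e => F e = v)).card = q := by
    intro v
    rw [Finset.card_filter]
    rcases v with a | b
    · simp only [F, Fintype.sum_sum_type, Sum.elim_inl, Sum.elim_inr, Sum.inl.injEq,
        reduceCtorEq, if_false, Finset.sum_const_zero, add_zero, Fintype.sum_sigma]
      rw [← Finset.card_filter]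
      have : ∑ x : A, ∑ _i : Fin (q - dA x), (if x = a then 1 else 0) = q - dA a := by
        simp
      rw [this]
      have := hf a
      simp only [dA]
      omega
    · simp only [F, Fintype.sum_sum_type, Sum.elim_inl, Sum.elim_inr, Sum.inr.injEq,
        reduceCtorEq, if_false, Finset.sum_const_zero, zero_add, Fintype.sum_sigma]
      rw [← Finset.card_filter]
      have : ∑ x : B, ∑ _i : Fin (q - dB x), (if x = b then 1 else 0) = q - dB b := by
        simp
      rw [this]
      have := hg b
      simp only [dB]
      omega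
  have hG : ∀ v, ((univ : Finset ((E ⊕ E) ⊕ ((Σ a : A, Fin (q - dA a)) ⊕
      (Σ b : B, Fin (q - dB b))))).filter (fun e => G e = v)).card = q := by
    intro v
    rw [Finset.card_filter]
    rcases v with b | a
    · simp only [G, Fintype.sum_sum_type, Sum.elim_inl, Sum.elim_inr, Sum.inl.injEq,
        reduceCtorEq, if_false, Finset.sum_const_zero, add_zero, zero_add, Fintype.sum_sigma]
      rw [← Finset.card_filter]
      have : ∑ x : B, ∑ _i : Fin (q - dB x), (if x = b then 1 else 0) = q - dB b := by
        simp
      rw [this]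
      have := hg b
      simp only [dB]
      omega
    · simp only [G, Fintype.sum_sum_type, Sum.elim_inl, Sum.elim_inr, Sum.inr.injEq,
        reduceCtorEq, if_false, Finset.sum_const_zero, add_zero, zero_add, Fintype.sum_sigma]
      rw [← Finset.card_filter]
      have : ∑ x : A, ∑ _i : Fin (q - dA x), (if x = a then 1 else 0) = q - dA a := by
        simp
      rw [this]
      have := hf a
      simp only [dA]
      omega
  obtain ⟨κ, h1, h2, h3⟩ := koenig_regular F G (by simp [add_comm]) q univ hF hG
  refine ⟨fun e => κ (Sum.inl (Sum.inl e)), fun e => h1 _ (Finset.mem_univ _), ?_, ?_⟩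
  · intro e e' hff hκ
    have := h2 _ (Finset.mem_univ (Sum.inl (Sum.inl e))) _
      (Finset.mem_univ (Sum.inl (Sum.inl e'))) (by simp [F, hff]) hκ
    simpa using this
  · intro e e' hff hκ
    have := h3 _ (Finset.mem_univ (Sum.inl (Sum.inl e))) _
      (Finset.mem_univ (Sum.inl (Sum.inl e'))) (by simp [G, hff]) hκ
    simpa using this

/-- a rank function on the fibres of `f` -/
theorem exists_rank {E A : Type} [Fintype E] [DecidableEq A] (f : E → A) :
    ∃ rk : E → ℕ, (∀ e, rk e < (univ.filter (fun e' => f e' = f e)).card) ∧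
      (∀ e e', f e = f e' → rk e = rk e' → e = e') := by
  classical
  let F : A → E → ℕ := fun a e => if h : e ∈ univ.filter (fun e' => f e' = a) then
    ((univ.filter (fun e' => f e' = a)).equivFin ⟨e, h⟩ : ℕ) else 0
  refine ⟨fun e => F (f e) e, ?_, ?_⟩
  · intro e
    have h : e ∈ univ.filter (fun e' => f e' = f e) := by simp
    simp only [F]
    rw [dif_pos h]
    exact Fin.is_lt _
  · intro e e' hff hr
    have h : e ∈ univ.filter (fun e'' => f e'' = f e') := by simp [hff]
    have h' : e' ∈ univ.filter (fun e'' => f e'' = f e') := by simp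
    simp only [F] at hr
    rw [hff, dif_pos h, dif_pos h'] at hr
    have h1 := Fin.ext hr
    have h2 := (univ.filter (fun e'' => f e'' = f e')).equivFin.injective h1
    exact congrArg Subtype.val h2

/-- D1: equitable splitting of a bipartite multigraph into `q` parts. -/
theorem split_edges {E A B : Type} [Fintype E] [DecidableEq E] [DecidableEq A] [DecidableEq B]
    [Fintype A] [Fintype B] (f : E → A) (g : E → B) (q p p' : ℕ)
    (hf : ∀ a, (univ.filter (fun e => f e = a)).card ≤ q * p)
    (hg : ∀ b, (univ.filter (fun e => g e = b)).card ≤ q * p') :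
    ∃ κ : E → ℕ, (∀ e, κ e < q) ∧
      (∀ a t, (univ.filter (fun e => f e = a ∧ κ e = t)).card ≤ p) ∧
      (∀ b t, (univ.filter (fun e => g e = b ∧ κ e = t)).card ≤ p') := by
  classical
  have aux : ∀ {A : Type} [DecidableEq A] [Fintype A] (f : E → A) (p : ℕ)
      (hf : ∀ a, (univ.filter (fun e => f e = a)).card ≤ q * p),
      ∃ f' : E → A × Fin p, (∀ e, (f' e).1 = f e) ∧
        ∀ v, (univ.filter (fun e => f' e = v)).card ≤ q := by
    intro A _ _ f p hf
    obtain ⟨rk, hrk1, hrk2⟩ := exists_rank f
    have hlt : ∀ e, rk e / q < p := by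
      intro e
      have h1 := lt_of_lt_of_le (hrk1 e) (hf (f e))
      exact Nat.div_lt_of_lt_mul h1
    refine ⟨fun e => (f e, ⟨rk e / q, hlt e⟩), fun e => rfl, ?_⟩
    rintro ⟨a, j⟩
    rcases Nat.eq_zero_or_pos q with hq | hq
    · subst hq
      have h1 := hf a
      rw [zero_mul] at h1
      refine le_trans (Finset.card_le_card ?_) h1
      intro e he
      simp only [Finset.mem_filter, Finset.mem_univ, true_and, Prod.mk.injEq] at he ⊢
      exact he.1
    have hinj : Set.InjOn rk (univ.filter (fun e => (f e, (⟨rk e / q, hlt e⟩ : Fin p)) = (a, j))) := by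
      intro e he e' he' h
      simp only [Finset.coe_filter, Finset.mem_univ, true_and, Set.mem_ofPred_eq,
        Prod.mk.injEq] at he he'
      exact hrk2 e e' (by rw [he.1, he'.1]) h
    rw [← Finset.card_image_of_injOn hinj]
    calc _ ≤ (Finset.Ico (q * j) (q * j + q)).card := by
          apply Finset.card_le_card
          intro r hr
          rw [Finset.mem_image] at hr
          obtain ⟨e, he, rfl⟩ := hr
          simp only [Finset.mem_filter, Finset.mem_univ, true_and, Prod.mk.injEq] at he
          have h1 : rk e / q = j := congrArg Fin.val he.2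
          rw [Finset.mem_Ico]
          have h2 := Nat.div_add_mod (rk e) q
          have h3 := Nat.mod_lt (rk e) hq
          rw [h1] at h2
          omega
      _ = q := by simp
  obtain ⟨f', hf1, hf2⟩ := aux f p hf
  obtain ⟨g', hg1, hg2⟩ := aux g p' hg
  obtain ⟨κ, h1, h2, h3⟩ := koenig f' g' q hf2 hg2
  refine ⟨κ, h1, ?_, ?_⟩
  · intro a t
    have hinj : Set.InjOn (fun e => (f' e).2) (univ.filter (fun e => f e = a ∧ κ e = t)) := by
      intro e he e' he' h
      simp only [Finset.coe_filter, Finset.mem_univ, true_and, Set.mem_ofPred_eq] at he he' h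
      apply h2 e e'
      · apply Prod.ext
        · rw [hf1, hf1, he.1, he'.1]
        · exact h
      · rw [he.2, he'.2]
    rw [← Finset.card_image_of_injOn hinj]
    refine le_trans (Finset.card_le_univ _) ?_
    simp
  · intro a t
    have hinj : Set.InjOn (fun e => (g' e).2) (univ.filter (fun e => g e = a ∧ κ e = t)) := by
      intro e he e' he' h
      simp only [Finset.coe_filter, Finset.mem_univ, true_and, Set.mem_ofPred_eq] at he he' h
      apply h3 e e'
      · apply Prod.ext
        · rw [hg1, hg1, he.1, he'.1]
        · exact h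
      · rw [he.2, he'.2]
    rw [← Finset.card_image_of_injOn hinj]
    refine le_trans (Finset.card_le_univ _) ?_
    simp

end Pool.MP_d56194_co
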