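import Mathlib
import Pool.Agent.Lib.MP_d56194_co.D1

set_option autoImplicit false

namespace Pool.MP_d56194_co

open Finset

theorem sum_divmod (m D : ℕ) (hD : 0 < D) (F : ℕ → ℕ → ℕ) :
    ∑ R ∈ range (m * D), F (R / D) (R % D) = ∑ i ∈ range m, ∑ r ∈ range D, F i r := by
  induction m with
  | zero => simp
  | succ m ih =>
    rw [Nat.succ_mul, Finset.sum_range_add, ih, Finset.sum_range_succ]
    congr 1
    apply Finset.sum_congr rfl
    intro r hr
    rw [Finset.mem_range] at hr
    have h1 : (m * D + r) / D = m := by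
      rw [mul_comm, Nat.mul_add_div hD, Nat.div_eq_of_lt hr, add_zero]
    have h2 : (m * D + r) % D = r := by
      rw [mul_comm, Nat.mul_add_mod, Nat.mod_eq_of_lt hr]
    rw [h1, h2]

theorem exact_of_sum (q p : ℕ) (f : ℕ → ℕ) (h1 : ∀ t, t < q → f t ≤ p)
    (h2 : ∑ t ∈ range q, f t = q * p) (t : ℕ) (ht : t < q) : f t = p := by
  have h3 : ∑ t ∈ range q, f t = ∑ t ∈ range q, p := by
    rw [h2]; simp
  exact (Finset.sum_eq_sum_iff_of_le (fun t ht => h1 t (Finset.mem_range.mp ht))).mp h3 t
    (Finset.mem_range.mpr ht)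

/-- numeric form of `split_edges` -/
theorem split_mat (mA mB : ℕ) (w : ℕ → ℕ → ℕ) (q p p' : ℕ)
    (hf : ∀ a, a < mA → ∑ b ∈ range mB, w a b ≤ q * p)
    (hg : ∀ b, b < mB → ∑ a ∈ range mA, w a b ≤ q * p') :
    ∃ v : ℕ → ℕ → ℕ → ℕ,
      (∀ a b, a < mA → b < mB → ∑ t ∈ range q, v t a b = w a b) ∧
      (∀ t a, a < mA → ∑ b ∈ range mB, v t a b ≤ p) ∧
      (∀ t b, b < mB → ∑ a ∈ range mA, v t a b ≤ p') := by
  classical
  let f : (Σ a : Fin mA, Σ b : Fin mB, Fin (w a b)) → Fin mA := fun e => e.1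
  let g : (Σ a : Fin mA, Σ b : Fin mB, Fin (w a b)) → Fin mB := fun e => e.2.1
  have hf' : ∀ a, (univ.filter (fun e => f e = a)).card ≤ q * p := by
    intro a
    rw [Finset.card_filter]
    simp only [f, Fintype.sum_sigma]
    rw [Finset.sum_eq_single a]
    · simp only [if_true, Finset.sum_const, Finset.card_univ, Fintype.card_fin, smul_eq_mul,
        mul_one]
      have := hf a a.2
      rwa [Finset.sum_range] at this
    · intro b _ hb
      simp [hb]
    · intro h
      exact absurd (Finset.mem_univ a) h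
  have hg' : ∀ b, (univ.filter (fun e => g e = b)).card ≤ q * p' := by
    intro b
    rw [Finset.card_filter]
    simp only [g, Fintype.sum_sigma]
    have h1 : ∀ a : Fin mA, ∑ b' : Fin mB, ∑ _z : Fin (w a b'), (if b' = b then 1 else 0) =
        w a b := by
      intro a
      rw [Finset.sum_eq_single b]
      · simp
      · intro b' _ hb'
        simp [hb']
      · intro h
        exact absurd (Finset.mem_univ b) h
    rw [Finset.sum_congr rfl (fun a _ => h1 a)]
    have := hg b b.2
    rwa [Finset.sum_range] at this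
  obtain ⟨κ, h1, h2, h3⟩ := split_edges f g q p p' hf' hg'
  refine ⟨fun t a b => (univ.filter (fun e : (Σ a : Fin mA, Σ b : Fin mB, Fin (w a b)) =>
    ((e.1 : ℕ) = a ∧ (e.2.1 : ℕ) = b) ∧ κ e = t)).card, ?_, ?_, ?_⟩
  · intro a b ha hb
    have hmap : ∀ e ∈ univ.filter (fun e : (Σ a : Fin mA, Σ b : Fin mB, Fin (w a b)) =>
        ((e.1 : ℕ) = a ∧ (e.2.1 : ℕ) = b)), κ e ∈ range q :=
      fun e _ => Finset.mem_range.mpr (h1 e)
    have e1 := Finset.card_eq_sum_card_fiberwise hmap
    simp only [Finset.filter_filter] at e1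
    rw [← e1, Finset.card_filter]
    simp only [Fintype.sum_sigma]
    rw [Finset.sum_eq_single ⟨a, ha⟩]
    · rw [Finset.sum_eq_single ⟨b, hb⟩]
      · simp
      · intro b' _ hb'
        have : (b' : ℕ) ≠ b := fun h => hb' (Fin.ext h)
        simp [this]
      · intro h
        exact absurd (Finset.mem_univ _) h
    · intro a' _ ha'
      have : (a' : ℕ) ≠ a := fun h => ha' (Fin.ext h)
      simp [this]
    · intro h
      exact absurd (Finset.mem_univ _) h
  · intro t a ha
    refine le_trans (le_of_eq ?_) (h2 ⟨a, ha⟩ t)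
    have hmap : ∀ e ∈ univ.filter (fun e : (Σ a : Fin mA, Σ b : Fin mB, Fin (w a b)) =>
        f e = ⟨a, ha⟩ ∧ κ e = t), (e.2.1 : ℕ) ∈ range mB :=
      fun e _ => Finset.mem_range.mpr e.2.1.2
    rw [Finset.card_eq_sum_card_fiberwise hmap]
    apply Finset.sum_congr rfl
    intro b _
    refine congrArg Finset.card ?_
    ext e
    simp only [Finset.mem_filter, Finset.mem_univ, true_and, f, Fin.ext_iff]
    tauto
  · intro t b hb
    refine le_trans (le_of_eq ?_) (h3 ⟨b, hb⟩ t)
    have hmap : ∀ e ∈ univ.filter (fun e : (Σ a : Fin mA, Σ b : Fin mB, Fin (w a b)) =>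
        g e = ⟨b, hb⟩ ∧ κ e = t), (e.1 : ℕ) ∈ range mA :=
      fun e _ => Finset.mem_range.mpr e.1.2
    rw [Finset.card_eq_sum_card_fiberwise hmap]
    apply Finset.sum_congr rfl
    intro a _
    refine congrArg Finset.card ?_
    ext e
    simp only [Finset.mem_filter, Finset.mem_univ, true_and, g, Fin.ext_iff]
    tauto

theorem two_le_sum (n : ℕ) (f : ℕ → ℕ) (a b : ℕ) (ha : a < n) (hb : b < n) (hab : a ≠ b)
    (h1 : 1 ≤ f a) (h2 : 1 ≤ f b) : 2 ≤ ∑ i ∈ range n, f i := by
  have h3 : ({a, b} : Finset ℕ) ⊆ range n := by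
    intro x hx
    rw [Finset.mem_insert, Finset.mem_singleton] at hx
    rw [Finset.mem_range]
    rcases hx with rfl | rfl <;> assumption
  have h4 := Finset.sum_le_sum_of_subset (f := f) h3
  rw [Finset.sum_pair hab] at h4
  omega

theorem le_sum_range (n : ℕ) (f : ℕ → ℕ) (a : ℕ) (ha : a < n) : f a ≤ ∑ i ∈ range n, f i :=
  Finset.single_le_sum (f := f) (fun _ _ => Nat.zero_le _) (Finset.mem_range.mpr ha)

/-- D2: the detached colouring of the dilated shape. -/
theorem detach (m N D : ℕ) (hD : 0 < D) (lam : ℕ → ℕ) (hN : ∀ i, lam i ≤ N)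
    (u : ℕ → ℕ → ℕ → ℕ)
    (hrow : ∀ i x, i < m → x < N → ∑ y ∈ range N, u i x y = if x < lam i then D ^ 2 else 0)
    (hcol : ∀ i y, i < m → y < N → ∑ x ∈ range N, u i x y = if y < lam i then D ^ 2 else 0)
    (hcap : ∀ x y, x < N → y < N → ∑ i ∈ range m, u i x y ≤ D ^ 2) :
    ∃ c : ℕ → ℕ → ℕ,
      (∀ R X, R < m * D → X < D * lam (R / D) → c R X < D * lam (R / D)) ∧
      (∀ R X X', R < m * D → X < D * lam (R / D) → X' < D * lam (R / D) →
        c R X = c R X' → X = X') ∧
      (∀ R R' X, R < m * D → R' < m * D → X < D * lam (R / D) → X < D * lam (R' / D) →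
        c R X = c R' X → R = R') := by
  -- step 1 : rows
  have s1 : ∀ i, ∃ v : ℕ → ℕ → ℕ → ℕ, i < m →
      (∀ a b, a < N → b < N → ∑ t ∈ range D, v t a b = u i a b) ∧
      (∀ t a, a < N → ∑ b ∈ range N, v t a b ≤ D) ∧
      (∀ t b, b < N → ∑ a ∈ range N, v t a b ≤ D) := by
    intro i
    by_cases hi : i < m
    · obtain ⟨v, h1, h2, h3⟩ := split_mat N N (u i) D D D
        (by
          intro a ha
          rw [hrow i a hi ha]
          split_ifs
          · rw [sq]
          · exact Nat.zero_le _)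
        (by
          intro a ha
          rw [hcol i a hi ha]
          split_ifs
          · rw [sq]
          · exact Nat.zero_le _)
      exact ⟨v, fun _ => ⟨h1, h2, h3⟩⟩
    · exact ⟨fun _ _ _ => 0, fun h => absurd h hi⟩
  choose v1 hv1 using s1
  have v1row : ∀ i r x, i < m → r < D → x < N → x < lam i →
      ∑ y ∈ range N, v1 i r x y = D := by
    intro i r x hi hr hx hxl
    obtain ⟨h1, h2, h3⟩ := hv1 i hi
    refine exact_of_sum D D (fun r => ∑ y ∈ range N, v1 i r x y) (fun t _ => h2 t x hx) ?_ r hr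
    rw [Finset.sum_comm]
    have : ∀ y ∈ range N, ∑ t ∈ range D, v1 i t x y = u i x y :=
      fun y hy => h1 x y hx (Finset.mem_range.mp hy)
    rw [Finset.sum_congr rfl this, hrow i x hi hx, if_pos hxl, sq]
  have hdiv : ∀ R, R < m * D → R / D < m := by
    intro R hR
    exact (Nat.div_lt_iff_lt_mul hD).mpr hR
  have hdivN : ∀ R, R < N * D → R / D < N := by
    intro R hR
    exact (Nat.div_lt_iff_lt_mul hD).mpr hR
  have hmod : ∀ R, R % D < D := fun R => Nat.mod_lt R hD
  -- step 2 : columns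
  have s2 : ∀ x, ∃ v : ℕ → ℕ → ℕ → ℕ, x < N →
      (∀ R y, R < m * D → y < N → ∑ t ∈ range D, v t R y = v1 (R / D) (R % D) x y) ∧
      (∀ t R, R < m * D → ∑ y ∈ range N, v t R y ≤ 1) ∧
      (∀ t y, y < N → ∑ R ∈ range (m * D), v t R y ≤ D) := by
    intro x
    by_cases hx : x < N
    · obtain ⟨v, h1, h2, h3⟩ := split_mat (m * D) N (fun R y => v1 (R / D) (R % D) x y) D 1 D
        (by
          intro R hR
          rw [mul_one]
          exact (hv1 (R / D) (hdiv R hR)).2.1 (R % D) x hx)
        (by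
          intro y hy
          rw [sum_divmod m D hD (fun i r => v1 i r x y)]
          have : ∀ i ∈ range m, ∑ r ∈ range D, v1 i r x y = u i x y :=
            fun i hi => (hv1 i (Finset.mem_range.mp hi)).1 x y hx hy
          rw [Finset.sum_congr rfl this, ← sq]
          exact hcap x y hx hy)
      exact ⟨v, fun _ => ⟨h1, h2, h3⟩⟩
    · exact ⟨fun _ _ _ => 0, fun h => absurd h hx⟩
  choose v2 hv2 using s2
  have v2row : ∀ x s R, x < N → s < D → R < m * D → x < lam (R / D) →
      ∑ y ∈ range N, v2 x s R y = 1 := by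
    intro x s R hx hs hR hxl
    obtain ⟨h1, h2, h3⟩ := hv2 x hx
    refine exact_of_sum D 1 (fun s => ∑ y ∈ range N, v2 x s R y) (fun t _ => h2 t R hR) ?_ s hs
    rw [Finset.sum_comm]
    have : ∀ y ∈ range N, ∑ t ∈ range D, v2 x t R y = v1 (R / D) (R % D) x y :=
      fun y hy => h1 R y hR (Finset.mem_range.mp hy)
    rw [Finset.sum_congr rfl this, v1row (R / D) (R % D) x (hdiv R hR) (hmod R) hx hxl, mul_one]
  -- step 3 : symbols
  have s3 : ∀ y, ∃ v : ℕ → ℕ → ℕ → ℕ, y < N →
      (∀ R X, R < m * D → X < N * D → ∑ t ∈ range D, v t R X = v2 (X / D) (X % D) R y) ∧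
      (∀ t R, R < m * D → ∑ X ∈ range (N * D), v t R X ≤ 1) ∧
      (∀ t X, X < N * D → ∑ R ∈ range (m * D), v t R X ≤ 1) := by
    intro y
    by_cases hy : y < N
    · obtain ⟨v, h1, h2, h3⟩ := split_mat (m * D) (N * D) (fun R X => v2 (X / D) (X % D) R y)
        D 1 1
        (by
          intro R hR
          rw [mul_one, sum_divmod N D hD (fun x s => v2 x s R y)]
          have : ∀ x ∈ range N, ∑ s ∈ range D, v2 x s R y = v1 (R / D) (R % D) x y :=
            fun x hx => (hv2 x (Finset.mem_range.mp hx)).1 R y hR hy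
          rw [Finset.sum_congr rfl this]
          exact (hv1 (R / D) (hdiv R hR)).2.2 (R % D) y hy)
        (by
          intro X hX
          rw [mul_one]
          exact (hv2 (X / D) (hdivN X hX)).2.2 (X % D) y hy)
      exact ⟨v, fun _ => ⟨h1, h2, h3⟩⟩
    · exact ⟨fun _ _ _ => 0, fun h => absurd h hy⟩
  choose v3 hv3 using s3
  -- the colour
  have hXN : ∀ R X, X < D * lam (R / D) → X < N * D := by
    intro R X hX
    have h1 : D * lam (R / D) ≤ D * N := Nat.mul_le_mul_left D (hN _)
    rw [mul_comm N D]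
    omega
  have hXdiv : ∀ R X, X < D * lam (R / D) → X / D < lam (R / D) := by
    intro R X hX
    rw [mul_comm] at hX
    exact (Nat.div_lt_iff_lt_mul hD).mpr hX
  have hcolour : ∀ R X, ∃ c : ℕ, R < m * D → X < D * lam (R / D) →
      c / D < N ∧ 1 ≤ v3 (c / D) (c % D) R X := by
    intro R X
    by_cases hR : R < m * D
    · by_cases hX : X < D * lam (R / D)
      · have hXM := hXN R X hX
        have hxN := hdivN X hXM
        have h1 := v2row (X / D) (X % D) R hxN (hmod X) hR (hXdiv R X hX)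
        have h2 : ∃ y ∈ range N, v2 (X / D) (X % D) R y ≠ 0 := by
          by_contra hno
          push Not at hno
          rw [Finset.sum_eq_zero hno] at h1
          omega
        obtain ⟨y, hy, hy2⟩ := h2
        rw [Finset.mem_range] at hy
        have h3 := (hv3 y hy).1 R X hR hXM
        have h4 : ∃ t ∈ range D, v3 y t R X ≠ 0 := by
          by_contra hno
          push Not at hno
          rw [Finset.sum_eq_zero hno] at h3
          exact hy2 h3.symm
        obtain ⟨t, ht, ht2⟩ := h4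
        rw [Finset.mem_range] at ht
        refine ⟨y * D + t, fun _ _ => ?_⟩
        have e1 : (y * D + t) / D = y := by
          rw [mul_comm, Nat.mul_add_div hD, Nat.div_eq_of_lt ht, add_zero]
        have e2 : (y * D + t) % D = t := by
          rw [mul_comm, Nat.mul_add_mod, Nat.mod_eq_of_lt ht]
        rw [e1, e2]
        exact ⟨hy, Nat.one_le_iff_ne_zero.mpr ht2⟩
      · exact ⟨0, fun _ h => absurd h hX⟩
    · exact ⟨0, fun h => absurd h hR⟩
  choose c hc using hcolour
  refine ⟨c, ?_, ?_, ?_⟩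
  · intro R X hR hX
    obtain ⟨hyN, h1⟩ := hc R X hR hX
    have hXM := hXN R X hX
    have hxN := hdivN X hXM
    -- chain of inequalities
    have a1 : v3 (c R X / D) (c R X % D) R X ≤ v2 (X / D) (X % D) R (c R X / D) := by
      rw [← (hv3 _ hyN).1 R X hR hXM]
      exact le_sum_range D (fun t => v3 (c R X / D) t R X) _ (hmod _)
    have a2 : v2 (X / D) (X % D) R (c R X / D) ≤
        v1 (R / D) (R % D) (X / D) (c R X / D) := by
      rw [← (hv2 _ hxN).1 R _ hR hyN]
      exact le_sum_range D (fun t => v2 (X / D) t R (c R X / D)) _ (hmod _)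
    have a3 : v1 (R / D) (R % D) (X / D) (c R X / D) ≤ u (R / D) (X / D) (c R X / D) := by
      rw [← (hv1 _ (hdiv R hR)).1 _ _ hxN hyN]
      exact le_sum_range D (fun t => v1 (R / D) t (X / D) (c R X / D)) _ (hmod _)
    have a4 : u (R / D) (X / D) (c R X / D) ≤ ∑ x ∈ range N, u (R / D) x (c R X / D) :=
      le_sum_range N (fun x => u (R / D) x (c R X / D)) _ hxN
    rw [hcol (R / D) _ (hdiv R hR) hyN] at a4
    by_contra hlt
    push Not at hlt
    have h5 : ¬ c R X / D < lam (R / D) := by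
      rw [Nat.div_lt_iff_lt_mul hD, mul_comm]
      omega
    rw [if_neg h5] at a4
    omega
  · intro R X X' hR hX hX' hcc
    by_contra hne
    obtain ⟨hyN, h1⟩ := hc R X hR hX
    obtain ⟨_, h2⟩ := hc R X' hR hX'
    rw [← hcc] at h2
    have h3 := (hv3 _ hyN).2.1 (c R X % D) R hR
    have h5 := two_le_sum (N * D) (v3 (c R X / D) (c R X % D) R) X X' (hXN R X hX)
      (hXN R X' hX') hne h1 h2
    omega
  · intro R R' X hR hR' hX hX' hcc
    by_contra hne
    obtain ⟨hyN, h1⟩ := hc R X hR hX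
    obtain ⟨_, h2⟩ := hc R' X hR' hX'
    rw [← hcc] at h2
    have h3 := (hv3 _ hyN).2.2 (c R X % D) X (hXN R X hX)
    have h5 := two_le_sum (m * D) (fun R'' => v3 (c R X / D) (c R X % D) R'' X) R R' hR hR' hne
      h1 h2
    omega

end Pool.MP_d56194_co
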