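import Mathlib

set_option autoImplicit false

namespace Pool.MP_d56194_co

open Finset

/-- CDS-colorability of (the graph of) a Young diagram, word for word as in the frozen
statement S11693. -/
def CDSColorable (μ : YoungDiagram) : Prop :=
  ∃ c : ℕ × ℕ → ℕ,
    (∀ a ∈ μ.cells, ∀ b ∈ μ.cells, a ≠ b → (a.1 = b.1 ∨ a.2 = b.2) → c a ≠ c b) ∧
    ∀ k : ℕ, 0 < k →
      (∃ f : Fin k → Finset (ℕ × ℕ),
          (∀ i, f i ⊆ μ.cells ∧
            ∀ a ∈ f i, ∀ b ∈ f i, a ≠ b → a.1 ≠ b.1 ∧ a.2 ≠ b.2) ∧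
          (Finset.univ.biUnion f).card = (μ.cells.filter (fun x => c x < k)).card) ∧
      (∀ f : Fin k → Finset (ℕ × ℕ),
          (∀ i, f i ⊆ μ.cells ∧
            ∀ a ∈ f i, ∀ b ∈ f i, a ≠ b → a.1 ≠ b.1 ∧ a.2 ≠ b.2) →
          (Finset.univ.biUnion f).card ≤ (μ.cells.filter (fun x => c x < k)).card)

/-- Wide Young diagrams (Chow, Fan, Goemans, Vondrak): for every set `I` of rows, the
partition formed by the rows in `I` dominates its conjugate, i.e. for every `k` some `k`
rows of `I` have together at least as many cells as the first `k` columns of `I`. -/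
def Wide (μ : YoungDiagram) : Prop :=
  ∀ (I : Finset ℕ) (k : ℕ), ∃ T ⊆ I, T.card ≤ k ∧
    ∑ i ∈ I, min (μ.rowLen i) k ≤ ∑ i ∈ T, μ.rowLen i

/-- The `D`-fold dilation of a Young diagram: every cell is replaced by a `D × D` block
(for `D = 0` it is the empty diagram). -/
def dilate (D : ℕ) (μ : YoungDiagram) : YoungDiagram where
  cells := (Finset.range (μ.colLen 0 * D) ×ˢ Finset.range (μ.rowLen 0 * D)).filter
    (fun x => (x.1 / D, x.2 / D) ∈ μ)
  isLowerSet := by
    intro a b hba ha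
    simp only [coe_filter, mem_product, Finset.mem_range, Set.mem_ofPred_eq] at ha ⊢
    obtain ⟨⟨h1, h2⟩, h3⟩ := ha
    obtain ⟨hb1, hb2⟩ := Prod.le_def.mp hba
    refine ⟨⟨by omega, by omega⟩, ?_⟩
    exact μ.up_left_mem (Nat.div_le_div_right hb1) (Nat.div_le_div_right hb2) h3

end Pool.MP_d56194_co
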