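import Mathlib
import Pool.Agent.Lib.MP_d56194_co.Defs

set_option autoImplicit false

namespace Pool.MP_d56194_co

open Finset

theorem card_lt_of_perm (r k : ℕ) (g : ℕ → ℕ) (h1 : ∀ x, x < r → g x < r)
    (h2 : ∀ x x', x < r → x' < r → g x = g x' → x = x') :
    ((range r).filter (fun x => g x < k)).card = min k r := by
  have hinj : Set.InjOn g (range r) := by
    intro x hx x' hx' h
    simp only [Finset.coe_range, Set.mem_Iio] at hx hx'
    exact h2 x x' hx hx' h
  have himg : (range r).image g = range r := by
    apply Finset.eq_of_subset_of_card_le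
    · intro y hy
      rw [Finset.mem_image] at hy
      obtain ⟨x, hx, rfl⟩ := hy
      rw [Finset.mem_range] at hx ⊢
      exact h1 x hx
    · rw [Finset.card_image_of_injOn hinj]
  have e1 : (((range r).filter (fun x => g x < k)).image g) =
      ((range r).filter (fun y => y < k)) := by
    ext y
    simp only [Finset.mem_image, Finset.mem_filter, Finset.mem_range]
    constructor
    · rintro ⟨x, ⟨hx, hk⟩, rfl⟩
      exact ⟨h1 x hx, hk⟩
    · rintro ⟨hy, hk⟩
      have : y ∈ (range r).image g := by
        rw [himg]; exact Finset.mem_range.mpr hy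
      rw [Finset.mem_image] at this
      obtain ⟨x, hx, rfl⟩ := this
      exact ⟨x, ⟨Finset.mem_range.mp hx, hk⟩, rfl⟩
  have e2 : ((range r).filter (fun y => y < k)) = range (min k r) := by
    ext y
    simp only [Finset.mem_filter, Finset.mem_range]
    omega
  have hinj2 : Set.InjOn g ((range r).filter (fun x => g x < k)) :=
    hinj.mono (by
      intro x hx
      simp only [Finset.coe_filter, Finset.mem_range, Set.mem_ofPred_eq] at hx
      simp only [Finset.coe_range, Set.mem_Iio]
      exact hx.1)
  rw [← Finset.card_image_of_injOn hinj2, e1, e2, Finset.card_range]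

/-- E1: a Latin tableau gives CDS-colorability. -/
theorem cds_of_latin (μ : YoungDiagram) (c : ℕ → ℕ → ℕ)
    (h1 : ∀ R X, (R, X) ∈ μ → c R X < μ.rowLen R)
    (h2 : ∀ R X X', (R, X) ∈ μ → (R, X') ∈ μ → c R X = c R X' → X = X')
    (h3 : ∀ R R' X, (R, X) ∈ μ → (R', X) ∈ μ → c R X = c R' X → R = R') :
    CDSColorable μ := by
  refine ⟨fun v => c v.1 v.2, ?_, ?_⟩
  · rintro ⟨R, X⟩ ha ⟨R', X'⟩ hb hne hor heq
    rw [YoungDiagram.mem_cells] at ha hb
    simp only at hor heq
    rcases hor with h | h
    · subst h
      exact hne (by rw [h2 R X X' ha hb heq])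
    · subst h
      exact hne (by rw [h3 R R' X ha hb heq])
  · intro k hk
    constructor
    · refine ⟨fun i => μ.cells.filter (fun v => c v.1 v.2 = i), ?_, ?_⟩
      · intro i
        refine ⟨Finset.filter_subset _ _, ?_⟩
        rintro ⟨R, X⟩ ha ⟨R', X'⟩ hb hne
        rw [Finset.mem_filter, YoungDiagram.mem_cells] at ha hb
        simp only at ha hb ⊢
        constructor
        · rintro rfl
          exact hne (by rw [h2 R X X' ha.1 hb.1 (by rw [ha.2, hb.2])])
        · rintro rfl
          exact hne (by rw [h3 R R' X ha.1 hb.1 (by rw [ha.2, hb.2])])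
      · congr 1
        ext v
        simp only [Finset.mem_biUnion, Finset.mem_univ, true_and, Finset.mem_filter]
        constructor
        · rintro ⟨i, hv, hi⟩
          exact ⟨hv, by rw [hi]; exact i.2⟩
        · rintro ⟨hv, hi⟩
          exact ⟨⟨c v.1 v.2, hi⟩, hv, rfl⟩
    · intro f hf
      have hrows : ∀ R, ((μ.cells.filter (fun v => c v.1 v.2 < k)).filter
          (fun v => v.1 = R)).card = min k (μ.rowLen R) := by
        intro R
        rw [← card_lt_of_perm (μ.rowLen R) k (c R)
          (fun x hx => h1 R x (YoungDiagram.mem_iff_lt_rowLen.mpr hx))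
          (fun x x' hx hx' h => h2 R x x' (YoungDiagram.mem_iff_lt_rowLen.mpr hx)
            (YoungDiagram.mem_iff_lt_rowLen.mpr hx') h)]
        symm
        apply Finset.card_nbij' (fun x => (R, x)) (fun v => v.2)
        · intro x hx
          simp only [Finset.coe_filter, Finset.mem_range, Set.mem_ofPred_eq,
            Finset.mem_filter, YoungDiagram.mem_cells, and_true] at hx ⊢
          exact ⟨YoungDiagram.mem_iff_lt_rowLen.mpr hx.1, hx.2⟩
        · rintro ⟨R', x⟩ hv
          simp only [Finset.coe_filter, Finset.mem_range, Set.mem_ofPred_eq,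
            Finset.mem_filter, YoungDiagram.mem_cells] at hv ⊢
          obtain ⟨⟨hv1, hv2⟩, rfl⟩ := hv
          exact ⟨YoungDiagram.mem_iff_lt_rowLen.mp hv1, hv2⟩
        · intro x _; rfl
        · rintro ⟨R', x⟩ hv
          simp only [Finset.coe_filter, Set.mem_ofPred_eq] at hv
          simp only [hv.2]
      have hmap1 : ∀ v ∈ Finset.univ.biUnion f, v.1 ∈ μ.cells.image Prod.fst := by
        intro v hv
        rw [Finset.mem_biUnion] at hv
        obtain ⟨i, _, hi⟩ := hv
        exact Finset.mem_image_of_mem _ ((hf i).1 hi)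
      have hmap2 : ∀ v ∈ μ.cells.filter (fun v => c v.1 v.2 < k),
          v.1 ∈ μ.cells.image Prod.fst := by
        intro v hv
        exact Finset.mem_image_of_mem _ (Finset.mem_filter.mp hv).1
      rw [Finset.card_eq_sum_card_fiberwise hmap1, Finset.card_eq_sum_card_fiberwise hmap2]
      apply Finset.sum_le_sum
      intro R _
      rw [hrows R]
      apply le_min
      · have e : (Finset.univ.biUnion f).filter (fun v => v.1 = R) =
            Finset.univ.biUnion (fun i => (f i).filter (fun v => v.1 = R)) := by
          ext v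
          simp only [Finset.mem_biUnion, Finset.mem_univ, true_and, Finset.mem_filter]
          constructor
          · rintro ⟨⟨i, hi⟩, h⟩; exact ⟨i, hi, h⟩
          · rintro ⟨i, hi, h⟩; exact ⟨⟨i, hi⟩, h⟩
        rw [e]
        calc _ ≤ ∑ i : Fin k, ((f i).filter (fun v => v.1 = R)).card := Finset.card_biUnion_le
          _ ≤ ∑ i : Fin k, 1 := by
            apply Finset.sum_le_sum
            intro i _
            rw [Finset.card_le_one]
            intro a ha b hb
            rw [Finset.mem_filter] at ha hb
            by_contra hne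
            exact ((hf i).2 a ha.1 b hb.1 hne).1 (by rw [ha.2, hb.2])
          _ = k := by simp
      · rw [YoungDiagram.rowLen_eq_card]
        apply Finset.card_le_card
        intro v hv
        rw [Finset.mem_filter, Finset.mem_biUnion] at hv
        obtain ⟨⟨i, _, hi⟩, hR⟩ := hv
        have := (hf i).1 hi
        rw [YoungDiagram.mem_cells] at this
        rw [YoungDiagram.mem_row_iff]
        exact ⟨this, hR⟩

theorem mem_dilate (D : ℕ) (hD : 0 < D) (μ : YoungDiagram) (R X : ℕ) :
    (R, X) ∈ dilate D μ ↔ (R / D, X / D) ∈ μ := by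
  rw [← YoungDiagram.mem_cells]
  simp only [dilate, Finset.mem_filter, Finset.mem_product, Finset.mem_range]
  constructor
  · rintro ⟨_, h⟩; exact h
  · intro h
    refine ⟨⟨?_, ?_⟩, h⟩
    · have h1 : (R / D, 0) ∈ μ := μ.up_left_mem le_rfl (Nat.zero_le _) h
      have h2 := YoungDiagram.mem_iff_lt_colLen.mp h1
      exact (Nat.div_lt_iff_lt_mul hD).mp h2
    · have h1 : (0, X / D) ∈ μ := μ.up_left_mem (Nat.zero_le _) le_rfl h
      have h2 := YoungDiagram.mem_iff_lt_rowLen.mp h1
      exact (Nat.div_lt_iff_lt_mul hD).mp h2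

theorem rowLen_dilate (D : ℕ) (hD : 0 < D) (μ : YoungDiagram) (R : ℕ) :
    (dilate D μ).rowLen R = D * μ.rowLen (R / D) := by
  have h : ∀ X, X < (dilate D μ).rowLen R ↔ X < D * μ.rowLen (R / D) := by
    intro X
    rw [← YoungDiagram.mem_iff_lt_rowLen, mem_dilate D hD, YoungDiagram.mem_iff_lt_rowLen,
      Nat.div_lt_iff_lt_mul hD, mul_comm]
  apply le_antisymm
  · by_contra hlt
    push Not at hlt
    have := (h _).mp hlt
    omega
  · by_contra hlt
    push Not at hlt
    have := (h _).mpr hlt
    omega

end Pool.MP_d56194_co
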